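import Pool.Agent.Helper9.UP.StW
import Pool.Agent.Helper2.UP.M_US

/-! Module LS of project UP (MP_d466de). -/

set_option autoImplicit false

namespace Pool.Agent.Helper9.UP

open Finset Polynomial
open Pool.Agent.Helper2.UP (us_reg us_Pr us_Prj)
open Pool.Agent.Helper9.TW (gm)

theorem ls_ind (X ω : ℝ) (j0 j n : ℕ) (hj : j0 ≤ j) (S1 S2 : ℝ) (h1 : S1 ≤ ind X ω j0 j n)
    (h2 : ind X ω j0 j n ≤ S2) :
    S1 - (ej X ω j n : ℝ) * S2 ≤ ind X ω j0 (j + 1) n := by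
  classical
  obtain ⟨e, he⟩ : ∃ e : ℕ, e = ej X ω j n := ⟨_, rfl⟩
  rw [← he]
  have he0 : (0 : ℝ) ≤ e := Nat.cast_nonneg _
  have h3 : (e : ℝ) * ind X ω j0 j n ≤ e * S2 := mul_le_mul_of_nonneg_left h2 he0
  have h4 : S1 - (e : ℝ) * S2 ≤ ind X ω j0 j n - (e : ℝ) * ind X ω j0 j n := by linarith
  refine h4.trans ?_
  by_cases hB : ∃ p ∈ Pr X ω j0 j, p ∣ n
  · have hi2 : ind X ω j0 j n = 0 := if_pos hB
    have hA : ∃ p ∈ Pr X ω j0 (j + 1), p ∣ n := by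
      obtain ⟨p, hp, hd⟩ := hB
      exact ⟨p, us_Pr _ _ _ _ _ hp, hd⟩
    have hi : ind X ω j0 (j + 1) n = 0 := if_pos hA
    rw [hi2, hi]
    simp
  · have hi2 : ind X ω j0 j n = 1 := if_neg hB
    rw [hi2]
    by_cases hA : ∃ p ∈ Pr X ω j0 (j + 1), p ∣ n
    · have hi : ind X ω j0 (j + 1) n = 0 := if_pos hA
      rw [hi]
      obtain ⟨p, hp, hd⟩ := hA
      have hpj : p ∈ bx X ω j := by
        unfold Pr at hp hB
        obtain ⟨i, hi, hpi⟩ := mem_biUnion.1 hp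
        rw [mem_Ico] at hi
        rcases Nat.lt_or_ge i j with hij | hij
        · exact absurd ⟨p, mem_biUnion.2 ⟨i, mem_Ico.2 ⟨hi.1, hij⟩, hpi⟩, hd⟩ hB
        · have : i = j := by omega
          rw [← this]
          exact hpi
      have h1e : 1 ≤ e := by
        rw [he]
        unfold ej
        exact card_pos.2 ⟨p, mem_filter.2 ⟨hpj, hd⟩⟩
      have : (1 : ℝ) ≤ e := by exact_mod_cast h1e
      linarith
    · have hi : ind X ω j0 (j + 1) n = 1 := if_neg hA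
      rw [hi]
      linarith

theorem hLS (hB : StWB) : StLS := by
  intro ω j0 Nm N j μ μ' hω hj0 hj hN hNm hNω ⟨B1, hB1, h1⟩ ⟨B2, hB2, h2⟩
  refine ⟨B1 + B2, by linarith, fun η hη => ?_⟩
  obtain ⟨W, hW⟩ : ∃ W : ℝ, W = |μ'| + |gm j| + 2 := ⟨_, rfl⟩
  have hW0 : 0 < W := by
    have := abs_nonneg μ'
    have := abs_nonneg (gm j)
    rw [hW]
    linarith
  obtain ⟨η', hη'⟩ : ∃ η' : ℝ, η' = η / W := ⟨_, rfl⟩
  have hη0 : 0 < η' := by rw [hη']; positivity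
  have hηW : η' * W = η := by
    rw [hη']
    field_simp
  obtain ⟨ε1, hε1, h1⟩ := h1 η' hη0
  obtain ⟨ε2, hε2, h2⟩ := h2 η' hη0
  refine ⟨min (min ε1 ε2) (min 1 η'), lt_min (lt_min hε1 hε2) (lt_min one_pos hη0), ?_⟩
  intro X g hR
  obtain ⟨ε, hε⟩ : ∃ ε : ℝ, ε = min (min ε1 ε2) (min 1 η') := ⟨_, rfl⟩
  rw [← hε] at hR
  have hεa : ε ≤ ε1 := by rw [hε]; exact (min_le_left _ _).trans (min_le_left _ _)
  have hεb : ε ≤ ε2 := by rw [hε]; exact (min_le_left _ _).trans (min_le_right _ _)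
  have hεc : ε ≤ 1 := by rw [hε]; exact (min_le_right _ _).trans (min_le_left _ _)
  have hεd : ε ≤ η' := by rw [hε]; exact (min_le_right _ _).trans (min_le_right _ _)
  obtain ⟨l1, w1, d1, m1⟩ := h1 X g (us_reg hR hεa)
  obtain ⟨l2, w2, d2, m2⟩ := h2 X g (us_reg hR hεb)
  have hX := hR.1
  have hX1 : (1 : ℝ) ≤ X := by linarith
  have hg := hR.2.1
  have hjN : j + 1 ≤ N := by omega
  have hcast : (((N - (j + 1) : ℕ) : ℝ)) = (N : ℝ) - ((j : ℝ) + 1) := by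
    rw [Nat.cast_sub hjN]
    push_cast
    ring
  have hlev : (((N - (j + 1) : ℕ) : ℝ)) * ω + ((j : ℝ) + 1) * ω = N * ω := by
    rw [hcast]
    ring
  obtain ⟨w3, m3, d3⟩ := hB X ω (((N - (j + 1) : ℕ) : ℝ) * ω) B2 j0 j j g l2 hX hω
    (by positivity) hB2 hj le_rfl w2
  rw [hlev] at w3 m3
  have m3 := m3 hNω
  obtain ⟨G, hG⟩ : ∃ G : ℝ, G = ∑ p ∈ bx X ω j, g p := ⟨_, rfl⟩
  rw [← hG] at m3
  have hG0 : 0 ≤ G := by
    rw [hG]
    exact sum_nonneg fun p _ => (hg p).1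
  have hGm : |G - gm j| ≤ ε := by
    rw [hG]
    exact hR.2.2 j hj (by omega)
  refine ⟨fun q => l1 q - bm X ω j l2 q, fun q => ⟨?_, fun hq => ?_⟩,
    fun n hn => ?_, ?_⟩
  · have a1 := (w1 q).1
    have a2 := (w3 q).1
    have a5 := abs_sub (l1 q) (bm X ω j l2 q)
    linarith
  · have hor : l1 q ≠ 0 ∨ bm X ω j l2 q ≠ 0 := by
      by_contra hcon
      rw [not_or, not_not, not_not] at hcon
      apply hq
      change l1 q - bm X ω j l2 q = 0
      rw [hcon.1, hcon.2]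
      ring
    rcases hor with h | h
    · obtain ⟨b1, b2⟩ := (w1 q).2 h
      exact ⟨⟨b1.1, fun p hp hd => us_Pr _ _ _ _ _ (b1.2 p hp hd)⟩, b2⟩
    · exact (w3 q).2 h
  · have e1 : ∑ q ∈ n.divisors, (l1 q - bm X ω j l2 q) =
        ∑ q ∈ n.divisors, l1 q - ∑ q ∈ n.divisors, bm X ω j l2 q := by
      rw [sum_sub_distrib]
    rw [e1, d3 n hn]
    exact ls_ind X ω j0 j n hj _ _ (d1 n hn) (d2 n hn)
  · have e1 : ms X g (fun q => l1 q - bm X ω j l2 q) =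
        ms X g l1 - ms X g (bm X ω j l2) := by
      unfold ms
      rw [← sum_sub_distrib]
      exact sum_congr rfl fun q _ => by ring
    rw [e1, m3]
    obtain ⟨g1, g2⟩ := abs_le.1 hGm
    have c1 : G * ms X g l2 ≤ G * (μ' + η') := mul_le_mul_of_nonneg_left m2 hG0
    have hab := abs_nonneg μ'
    have hgm := le_abs_self (gm j)
    have c2 : G * μ' - gm j * μ' ≤ ε * |μ'| := by
      have : G * μ' - gm j * μ' = (G - gm j) * μ' := by ring
      rw [this]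
      calc (G - gm j) * μ' ≤ |(G - gm j) * μ'| := le_abs_self _
        _ = |G - gm j| * |μ'| := abs_mul _ _
        _ ≤ ε * |μ'| := mul_le_mul_of_nonneg_right hGm hab
    have c4 : G * η' ≤ (|gm j| + 1) * η' := mul_le_mul_of_nonneg_right (by linarith) hη0.le
    have c5 : ε * |μ'| ≤ η' * |μ'| := mul_le_mul_of_nonneg_right hεd hab
    rw [hW] at hηW
    have c7 : η' * (|μ'| + |gm j| + 2) = η' * |μ'| + η' * |gm j| + 2 * η' := by ring
    have c8 : (|gm j| + 1) * η' = η' * |gm j| + η' := by ring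
    have c10 : G * (μ' + η') = G * μ' + G * η' := by ring
    linarith

end Pool.Agent.Helper9.UP
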