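import Pool.Agent.Helper9.UP.StC
import Pool.Agent.Helper9.TW.All
import Pool.Agent.Helper18.TR.Final
import Pool.Agent.Helper28.UP.M_SV
import Pool.Agent.Helper16.UP.M_CR
import Pool.Agent.Helper84.UP.M_DC
import Pool.Agent.Helper69.UP.M_RG
import Pool.Agent.Helper40.UP.M_EQ
import Pool.Agent.Helper2.UP.M_UB
import Pool.Agent.Helper69.UP.M_LG
import Pool.Agent.Helper68.UP.M_FI
import Pool.Agent.Helper69.UP.M_KU
import Pool.Agent.Helper2.UP.M_B2
import Pool.Agent.Helper42.UP9.M_TK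
import Pool.Agent.Helper76.UP.M_KL
import Pool.Agent.Helper57.UP.M_DG
import Pool.Agent.Helper60.UP.M_GF
import Pool.Agent.Helper13.UP.M_GE
import Pool.Agent.Helper74.UP.M_BI
import Pool.Agent.Helper29.UP.M_PD
import Pool.Agent.Helper15.UP.M_RO
import Pool.Agent.Helper90.UP.M_MT
import Pool.Agent.Helper78.UP.M_FC
import Pool.Agent.Helper40.UP.M_BO
import Pool.Agent.Helper16.UP.M_MN
import Pool.Agent.Helper41.UP.M_LV
import Pool.Agent.Helper36.UP.M_RS
import Pool.Agent.Helper76.UP.M_FL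
import Pool.Agent.Helper80.UP.M_EX
import Pool.Agent.Helper51.UP.M_VR
import Pool.Agent.Helper84.UP.M_WB
import Pool.Agent.Helper2.UP.M_WP
import Pool.Agent.Helper2.UP.M_US
import Pool.Agent.Helper9.UP.M_LS
import Pool.Agent.Helper36.UP.M_TV
import Pool.Agent.Helper79.UP.M_AX
import Pool.Agent.Helper48.UP.M_NN
import Pool.Agent.Helper91.UP.M_D6
import Pool.Agent.Helper90.UP.M_FS
import Pool.Agent.Helper28.UP.M_C0
import Pool.Agent.Helper36.UP.M_CN
import Pool.Agent.Helper40.UP.M_PO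
import Pool.Agent.Helper60.UP.M_CB
import Pool.Agent.Helper16.UP.M_CU
import Pool.Agent.Helper80.UP.M_BR
import Pool.Agent.Helper2.UP.M_SQ
import Pool.Agent.Helper2.UP.M_PT
import Pool.Agent.Helper38.UP.M_VA
import Pool.Agent.Helper82.UP.M_NA
import Pool.Agent.Helper82.UP.M_NB
import Pool.Agent.Helper51.UP.M_CM
import Pool.Agent.Helper90.UP.M_FA
import Pool.Agent.Helper62.UP.M_FB
import Pool.Agent.Helper79.UP.M_NU
import Pool.Agent.Helper13.UP.M_RM
import Pool.Agent.Helper18.UP.M_DI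
import Pool.Agent.Helper91.UP.M_EN

/-!
# Project UP: assembly
-/

namespace Pool.Agent.Helper9.UP

open Pool.Agent

/-! part N -/

theorem pCR : StCR := Helper16.UP.hCR Helper28.UP.hSV

theorem pDC : StDC := Helper84.UP.hDC pCR

theorem pRG : StRG := Helper69.UP.hRG pDC

theorem pEQ : StEQ := Helper40.UP.hEQ pDC pRG

theorem pUB : StUB := Helper2.UP.hUB pDC pRG

theorem pLG : StLG := Helper69.UP.hLG pRG

theorem pKU : StKU := Helper69.UP.hKU pEQ Helper68.UP.hFI pRG

theorem pB2 : StB2 := Helper2.UP.hB2 pUB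

theorem pTK : StTK := Helper42.UP9.hTK pEQ

theorem pKL : StKL := Helper76.UP.hKL pEQ Helper68.UP.hFI pRG pLG pB2 pTK

/-- the uniform Mertens theorem for the number of roots modulo `p` -/
theorem pMT : StMT := Helper90.UP.hMT pKU pKL Helper57.UP.hDG Helper60.UP.hGF Helper13.UP.hGE
  Helper74.UP.hBI Helper29.UP.hPD Helper15.UP.hRO

/-! part S -/

theorem pBO : StBO := Helper40.UP.hBO Helper78.UP.hFC Pool.Agent.Helper18.TR.pf_Sym Pool.Agent.Helper18.TR.pf_Esymm

theorem pMN : StMN := Helper16.UP.hMN Helper78.UP.hFC Pool.Agent.Helper18.TR.pf_Sym Pool.Agent.Helper18.TR.pf_Esymm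

theorem pRS : StRS := Helper36.UP.hRS pMT Helper15.UP.hRO Helper18.TR.range_

theorem pFL : StFL := Helper76.UP.hFL pBO pMN Helper41.UP.hLV pRS Helper15.UP.hRO

theorem pEX : StEX := Helper80.UP.hEX pRS Helper15.UP.hRO

theorem pVR : StVR := Helper51.UP.hVR pMT Helper15.UP.hRO

/-! part W -/

theorem pUS : StUS := Helper2.UP.hUS Helper84.UP.hWB Helper2.UP.hWP

theorem pLS : StLS := hLS Helper84.UP.hWB

theorem pAX : StAX := Helper79.UP.hAX pUS pLS Helper36.UP.hTV

theorem pFS : StFS := Helper90.UP.hFS pAX Helper74.TW.hD4 TW.pD5 Helper91.UP.hD6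

/-! part C -/

theorem pCB : StCB := Helper60.UP.hCB Helper36.UP.hCN Helper40.UP.hPO

theorem pCU : StCU := Helper16.UP.hCU Helper36.UP.hCN Helper40.UP.hPO Helper15.UP.hRO

theorem pSQ : StSQ := Helper2.UP.hSQ Helper80.UP.hBR Helper15.UP.hRO

theorem pPT : StPT := Helper2.UP.hPT Helper40.UP.hPO

theorem pNA : StNA := Helper82.UP.hNA Helper38.UP.hVA pVR pCU pEX

theorem pNB : StNB := Helper82.UP.hNB pVR pCU pEX

theorem pCM : StCM := Helper51.UP.hCM TW.hC9 pCB Helper84.UP.hWB Helper48.UP.hNN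

theorem pFA : StFA := Helper90.UP.hFA pFL pFS pCM pNA Helper28.UP.hC0 pPT pSQ Helper40.UP.hPO pEX

theorem pFB : StFB := Helper62.UP.hFB pFL pCU pNB Helper28.UP.hC0 pPT pSQ Helper40.UP.hPO pEX

theorem pDI : StDI := Helper18.UP.hDI pMT Helper13.UP.hRM

theorem pEN : StEN := Helper91.UP.hEN pFA pFB (Helper79.UP.hNU pEX) pDI

end Pool.Agent.Helper9.UP
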