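import Mathlib
import Pool.Agent.Helper9.TW.Defs

/-!
# Project UP (MP_d466de): almost prime values of irreducible polynomials, uniformly in the polynomial

Definitions.
-/

set_option autoImplicit false

noncomputable section

namespace Pool.Agent.Helper9.UP

open Finset Polynomial NumberField Module

/-! ### number fields -/

section field

variable (K : Type) [Field K] [NumberField K]

/-- the degree -/
def dg : ℕ := finrank ℚ K

theorem ball_finite (B : ℝ) : {x : 𝓞 K | ∀ φ : K →+* ℂ, ‖φ (x : K)‖ ≤ B}.Finite := by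
  have h := Embeddings.finite_of_norm_le K ℂ B
  refine Set.Finite.subset (h.preimage (f := fun x : 𝓞 K => (x : K))
    (RingOfIntegers.coe_injective.injOn)) ?_
  intro x hx
  exact ⟨RingOfIntegers.isIntegral_coe x, hx⟩

/-- the integers of `K` all of whose conjugates are at most `B` in absolute value -/
def ball (B : ℝ) : Finset (𝓞 K) := (ball_finite K B).toFinset

theorem mem_ball (B : ℝ) (x : 𝓞 K) : x ∈ ball K B ↔ ∀ φ : K →+* ℂ, ‖φ (x : K)‖ ≤ B := by
  unfold ball
  rw [Set.Finite.mem_toFinset]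
  rfl

/-- their number -/
def nb (B : ℝ) : ℝ := (ball K B).card

open Classical in
/-- the nonzero elements of the ball -/
def ball0 (B : ℝ) : Finset (𝓞 K) := (ball K B).filter (fun x => x ≠ 0)

open Classical in
/-- the number of those in the ideal `I` -/
def ni (I : Ideal (𝓞 K)) (B : ℝ) : ℝ := ((ball K B).filter (fun x => x ∈ I)).card

/-- the norm of an ideal -/
def nm (I : Ideal (𝓞 K)) : ℝ := (Ideal.absNorm I : ℝ)

/-- there is an integer `α` whose powers below the degree are linearly independent and at most `T / dg` at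
all places -/
def Gen (T : ℝ) : Prop := ∃ α : 𝓞 K,
  LinearIndependent ℤ (fun i : Fin (dg K) => α ^ (i : ℕ)) ∧
  ∀ (φ : K →+* ℂ) (i : ℕ), i < dg K → (dg K : ℝ) * ‖φ (α : K)‖ ^ i ≤ T

open Classical in
/-- nonzero prime ideals of norm at most `Y` -/
def pI (Y : ℕ) : Finset (Ideal (𝓞 K)) :=
  (Ideal.finite_setOfPred_absNorm_le (S := 𝓞 K) Y).toFinset.filter (fun P => P.IsPrime ∧ P ≠ ⊥)

/-- the prime powers `P ^ k`, `k ≥ 1`, of norm at most `Y`, as pairs `(P, k)` -/
def pp (Y : ℕ) : Finset (Ideal (𝓞 K) × ℕ) :=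
  (pI K Y ×ˢ Icc 1 Y).filter (fun v => Ideal.absNorm v.1 ^ v.2 ≤ Y)

/-- the sum of `log N P / N P ^ k` over the prime powers of norm at most `Y` -/
def Sst (Y : ℕ) : ℝ := ∑ v ∈ pp K Y, Real.log (nm K v.1) / nm K v.1 ^ v.2

/-- the sum of `log N P / N P` over the prime ideals of norm at most `Y` -/
def S1 (Y : ℕ) : ℝ := ∑ P ∈ pI K Y, Real.log (nm K P) / nm K P

/-- the primes of degree one: the sum of `log N P / N P` over the `P` of norm a rational prime at most `Y` -/
def Sd (Y : ℕ) : ℝ := ∑ P ∈ (pI K Y).filter (fun P => (Ideal.absNorm P).Prime),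
  Real.log (nm K P) / nm K P

end field

/-! ### the polynomial -/

/-- number of roots of `f` modulo `q` -/
def rho (f : ℤ[X]) (q : ℕ) : ℕ := ((range q).filter (fun r : ℕ => (q : ℤ) ∣ f.eval (r : ℤ))).card

/-- the density at `p`; zero for `p ≤ 2 d` -/
def gf (f : ℤ[X]) (p : ℕ) : ℝ := if p ≤ 2 * f.natDegree then 0 else (rho f p : ℝ) / p

/-- the sum of `g p log p` over the primes `p ≤ Y` -/
def Sf (f : ℤ[X]) (Y : ℕ) : ℝ := ∑ p ∈ (range (Y + 1)).filter Nat.Prime, gf f p * Real.log p

/-- admissible polynomials for the parameter `Λ` -/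
structure Adm (Λ : ℝ) (f : ℤ[X]) : Prop where
  irr : Irreducible f
  deg : 1 ≤ f.natDegree
  degLe : (f.natDegree : ℝ) ≤ Λ
  coe : ∀ k, |((f.coeff k : ℤ) : ℝ)| ≤ Real.exp Λ

end Pool.Agent.Helper9.UP
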