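import Pool.Agent.Helper9.UP.Defs
import Pool.Agent.Helper9.TW.St

/-!
# Project UP (MP_d466de): definitions for the sieve parts
-/

set_option autoImplicit false

noncomputable section

namespace Pool.Agent.Helper9.UP

open Finset Polynomial
open Pool.Agent.Helper18.TR (idx Qi)
open Pool.Agent.Helper9.TW (gm)

/-! ### the small primes -/

open Classical in
/-- at most `β i` primes of the range `i` -/
def fb0 (w : ℕ) (β : ℕ → ℕ) (Q : Finset ℕ) : Finset (Finset ℕ) :=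
  Q.powerset.filter (fun T => ∀ i ∈ range (w + 1), (Qi w T i).card ≤ β i)

open Classical in
/-- exactly `β i + 1` primes of one range `i`, at most `β j` of every other range `j` -/
def fb1 (w : ℕ) (β : ℕ → ℕ) (Q : Finset ℕ) : Finset (Finset ℕ) :=
  Q.powerset.filter (fun T => ∃ i ∈ range (w + 1), (Qi w T i).card = β i + 1 ∧
    ∀ j ∈ range (w + 1), j ≠ i → (Qi w T j).card ≤ β j)

/-- the primes in `(2 d, w]` -/
def Qf (f : ℤ[X]) (w : ℕ) : Finset ℕ := (Ioc (2 * f.natDegree) w).filter Nat.Prime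

/-- the sieve product -/
def VV (f : ℤ[X]) (w : ℕ) : ℝ := ∏ p ∈ Qf f w, (1 - gf f p)

/-! ### boxes of primes and weights -/

/-- the primes of box `i` -/
def bx (X ω : ℝ) (i : ℕ) : Finset ℕ :=
  (range ⌈X ^ (((i : ℝ) + 1) * ω)⌉₊).filter
    (fun p => p.Prime ∧ X ^ ((i : ℝ) * ω) ≤ (p : ℝ))

/-- the primes of the boxes `j0 ≤ i < j` -/
def Pr (X ω : ℝ) (j0 j : ℕ) : Finset ℕ := (Ico j0 j).biUnion (bx X ω)

/-- squarefree products of these primes -/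
def Sp (X ω : ℝ) (j0 j m : ℕ) : Prop :=
  Squarefree m ∧ ∀ p : ℕ, p.Prime → p ∣ m → p ∈ Pr X ω j0 j

/-- the multiplicative extension of `g` -/
def GG (g : ℕ → ℝ) (q : ℕ) : ℝ := ∏ p ∈ q.primeFactors, g p

/-- weights bounded by `B`, of level `X ^ x`, with the primes of the boxes `j0 ≤ i < j` -/
def Wt (X ω : ℝ) (j0 j : ℕ) (x B : ℝ) (l : ℕ → ℝ) : Prop :=
  ∀ q, |l q| ≤ B ∧ (l q ≠ 0 → Sp X ω j0 j q ∧ (q : ℝ) ≤ X ^ x)

/-- the main term -/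
def ms (X : ℝ) (g l : ℕ → ℝ) : ℝ := ∑ q ∈ range (⌊X ^ 2⌋₊ + 1), l q * GG g q

/-- `l` multiplied by the primes of box `j` -/
def bm (X ω : ℝ) (j : ℕ) (l : ℕ → ℝ) (q : ℕ) : ℝ :=
  ∑ p ∈ (bx X ω j).filter (fun p => p ∣ q), l (q / p)

open Classical in
/-- products of two different primes of box `j` -/
def pr2 (X ω : ℝ) (j q : ℕ) : ℝ :=
  if ∃ p ∈ bx X ω j, ∃ p' ∈ bx X ω j, p < p' ∧ q = p * p' then 1 else 0

open Classical in
/-- indicator function of the integers without prime factors in `Pr` -/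
def ind (X ω : ℝ) (j0 j n : ℕ) : ℝ := if ∃ p ∈ Pr X ω j0 j, p ∣ n then 0 else 1

/-- number of prime factors in box `j` -/
def ej (X ω : ℝ) (j n : ℕ) : ℕ := ((bx X ω j).filter (fun p => p ∣ n)).card

/-- the boxes `j0 ≤ i ≤ Nm` are regular for the density `g` -/
def Reg (ε X ω : ℝ) (j0 Nm : ℕ) (g : ℕ → ℝ) : Prop :=
  2 ≤ X ∧ (∀ p, 0 ≤ g p ∧ g p ≤ 1) ∧
    ∀ i, j0 ≤ i → i ≤ Nm → |∑ p ∈ bx X ω i, g p - gm i| ≤ ε

/-- there are upper bound sieve weights of level `X ^ (N ω)` for the boxes below `j` with main term `μ`, for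
all regular densities -/
def UpP (ω : ℝ) (j0 Nm N j : ℕ) (μ : ℝ) : Prop :=
  ∃ B : ℝ, 0 ≤ B ∧ ∀ η : ℝ, 0 < η → ∃ ε : ℝ, 0 < ε ∧ ∀ (X : ℝ) (g : ℕ → ℝ), Reg ε X ω j0 Nm g →
    ∃ l : ℕ → ℝ, Wt X ω j0 j ((N : ℝ) * ω) B l ∧
      (∀ n : ℕ, 1 ≤ n → ind X ω j0 j n ≤ ∑ q ∈ n.divisors, l q) ∧ ms X g l ≤ μ + η

/-- the same for lower bounds -/
def LoP (ω : ℝ) (j0 Nm N j : ℕ) (μ : ℝ) : Prop :=
  ∃ B : ℝ, 0 ≤ B ∧ ∀ η : ℝ, 0 < η → ∃ ε : ℝ, 0 < ε ∧ ∀ (X : ℝ) (g : ℕ → ℝ), Reg ε X ω j0 Nm g →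
    ∃ l : ℕ → ℝ, Wt X ω j0 j ((N : ℝ) * ω) B l ∧
      (∀ n : ℕ, 1 ≤ n → ∑ q ∈ n.divisors, l q ≤ ind X ω j0 j n) ∧ μ - η ≤ ms X g l

/-! ### the values of the polynomial -/

/-- the product of the primes up to `2 d` -/
def PM (f : ℤ[X]) : ℕ := primorial (2 * f.natDegree)

/-- the integers in `(N, 2 N]` in the class `m0` -/
def AA (f : ℤ[X]) (m0 N : ℕ) : Finset ℕ := (Ioc N (2 * N)).filter (fun m => m % PM f = m0)

/-- the value `f(m)` as a natural number -/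
def val (f : ℤ[X]) (m : ℕ) : ℕ := (f.eval (m : ℤ)).toNat

open Classical in
/-- the weights of a family `F` of sets of primes at `n` -/
def tw (F : Finset (Finset ℕ)) (n : ℕ) : ℝ :=
  ∑ T ∈ F, (-1 : ℝ) ^ T.card * ∏ p ∈ T, (if p ∣ n then (1 : ℝ) else 0)

/-- their mean value -/
def MW (F : Finset (Finset ℕ)) (g : ℕ → ℝ) : ℝ := ∑ T ∈ F, (-1 : ℝ) ^ T.card * ∏ p ∈ T, g p

/-- `F0`, `F1` are upper and lower bound sieves for the primes in `Qf f w`, of level `exp lam` and accuracy `ε` -/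
structure FLp (f : ℤ[X]) (w : ℕ) (lam ε : ℝ) (F0 F1 : Finset (Finset ℕ)) : Prop where
  sub : ∀ T ∈ F0 ∪ F1, T ⊆ Qf f w ∧ ∑ p ∈ T, Real.log p ≤ lam
  lo : ∀ h : ℕ → ℝ, (∀ p, 0 ≤ h p ∧ h p ≤ 1) → MW F1 h ≤ ∏ p ∈ Qf f w, (1 - h p)
  up : ∀ h : ℕ → ℝ, (∀ p, 0 ≤ h p ∧ h p ≤ 1) → ∏ p ∈ Qf f w, (1 - h p) ≤ MW F0 h
  main0 : MW F0 (gf f) ≤ (1 + ε) * VV f w
  main1 : (1 - ε) * VV f w ≤ MW F1 (gf f)

/-- the fundamental lemma with accuracy `1 / 1000` for `f` -/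
def FLh (Bs Λ : ℝ) (f : ℤ[X]) : Prop := ∀ w : ℕ, 2 ≤ w → Real.log w ≤ Real.exp (Λ / 8) →
  ∃ F0 F1 : Finset (Finset ℕ), FLp f w (Bs * (Real.log w + Λ ^ 4)) (1 / 1000) F0 F1

/-- the exponent `2 d / (2 d + 1)` -/
def vd (f : ℤ[X]) : ℝ := 2 * (f.natDegree : ℝ) / (2 * f.natDegree + 1)

/-- the primes from `N ^ x` to `N ^ vd` -/
def Nr (f : ℤ[X]) (N : ℕ) (x : ℝ) : Finset ℕ :=
  (range (N + 1)).filter (fun p => p.Prime ∧ (N : ℝ) ^ x ≤ (p : ℝ) ∧ (p : ℝ) ≤ (N : ℝ) ^ vd f)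

/-- lower bound for the number of good values, with all error terms -/
def Er (f : ℤ[X]) (Λ κ δ B Bs : ℝ) (N w : ℕ) : ℝ :=
  κ * ((N : ℝ) / PM f) * VV f w - B * Real.exp (Bs * Λ ^ 4 + 2 * Λ ^ 2) * (N : ℝ) ^ (1 - δ) -
    N * Real.exp (2 * Bs * Λ ^ 4 - Real.log N / (4 * Λ)) -
    ((f.natDegree : ℝ) * N / w + f.natDegree * (N : ℝ) ^ vd f)

open Classical in
/-- the good values: more than `1`, at most `d + 1` prime factors, all larger than `N ^ c` -/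
def Gd (f : ℤ[X]) (N : ℕ) (c : ℝ) : Finset ℕ :=
  (Ioc N (2 * N)).filter (fun m => 1 < val f m ∧
    ArithmeticFunction.cardFactors (val f m) ≤ f.natDegree + 1 ∧
    ∀ p : ℕ, p.Prime → p ∣ val f m → (N : ℝ) ^ c < (p : ℝ))

/-- the length of `f`: the sum of the numbers of binary digits of the coefficients (`0` counts `1`) -/
def len (f : ℤ[X]) : ℕ := ∑ k ∈ range (f.natDegree + 1), max 1 (Nat.size (f.coeff k).natAbs)

/-- condition `(*)` -/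
def NFD (f : ℤ[X]) : Prop := ∀ n : ℕ, 1 < n → ∃ k : ℤ, ¬ (n : ℤ) ∣ f.eval k

end Pool.Agent.Helper9.UP
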