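import Pool.Agent.Helper9.UP.Defs

/-!
# Project UP (MP_d466de), part N: number fields

THEOREM of the project. There are `C`, `c > 0` such that for every irreducible `f` in `ℤ[X]` of degree `d ≥ 1` with positive
leading coefficient and without fixed divisor there is `X ≤ exp (C L(f) ^ 5)` with at least `X ^ (1/2)` integers `m ≤ X`
for which `f(m) > 1` has at most `d + 1` prime factors (with multiplicity), all larger than `X ^ c`.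

Part N: uniform Mertens theorem for the number of roots of `f` modulo `p`, with an error `O(Λ ^ 3)`, where `Λ` bounds the
degree and the logarithms of the coefficients. No zeta functions: pigeonhole principle, coset counting and a Chebyshev
argument in the ring of integers; instead of a zero free region a dichotomy (Turan-Kubilius).

Notation in the proofs: `d = dg K ≥ 1`. `Gen K T` implies `1 ≤ d ≤ T` (take `i = 0`).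
-/

set_option autoImplicit false

noncomputable section

namespace Pool.Agent.Helper9.UP

open Finset Polynomial NumberField Module

/-- (SV, no hypotheses.) A short vector in an ideal. PROOF. `α` from `Gen`. Let `q = ⌊nm I ^ (1/d)⌋ + 1`, so `q ^ d > nm I`, the
number of elements of `𝓞 K ⧸ I`. Two of the `q ^ d` elements `∑_{i < d} c_i α ^ i`, `0 ≤ c_i < q`, with different vectors `c` are congruent
modulo `I`; the difference `x = ∑ (c_i - c'_i) α ^ i` is not zero (linear independence), and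
`‖φ x‖ ≤ (q - 1) ∑_{i < d} ‖φ α‖ ^ i ≤ (q - 1) d (T / d)`. -/
def StSV : Prop := ∀ (K : Type) [Field K] [NumberField K] (T : ℝ), Gen K T →
  ∀ I : Ideal (𝓞 K), I ≠ ⊥ → ∃ x ∈ I, x ≠ 0 ∧
    ∀ φ : K →+* ℂ, ‖φ (x : K)‖ ≤ T * nm K I ^ (1 / (dg K : ℝ))

/-- (CR, assume `hS : StSV`.) Short representatives of the cosets. PROOF. Let `x` be from SV. The `d` elements `x α ^ i` are linearly
independent over `ℤ`, hence over `ℚ`, so they are a basis of `K` over `ℚ` (`d = finrank`). Write `c = ∑ t_i x α ^ i`, `t_i ∈ ℚ`, and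
`c' = c - ∑ ⌊t_i⌋ x α ^ i ∈ 𝓞 K`. Then `c - c' ∈ I` and `c' = ∑ (t_i - ⌊t_i⌋) x α ^ i`, so
`‖φ c'‖ ≤ ‖φ x‖ ∑ ‖φ α‖ ^ i ≤ T nm ^ (1/d) T`. -/
def StCR : Prop := ∀ (K : Type) [Field K] [NumberField K] (T : ℝ), Gen K T →
  ∀ I : Ideal (𝓞 K), I ≠ ⊥ → ∀ c : 𝓞 K, ∃ c' : 𝓞 K, c - c' ∈ I ∧
    ∀ φ : K →+* ℂ, ‖φ (c' : K)‖ ≤ T ^ 2 * nm K I ^ (1 / (dg K : ℝ))

/-- (DC, assume `hC : StCR`.) Double counting. PROOF. `R = T ^ 2 nm ^ (1/d)`. For every coset `c + I` choose the representative `c'` of CR.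
`y ↦ y + c'` maps `I ∩ ball B` injectively into `(c + I) ∩ ball (B + R)`, and `y ↦ y - c'` maps `(c + I) ∩ ball (B - R)`
injectively into `I ∩ ball B`. The `nm I` cosets partition the balls (`nm I = Nat.card (𝓞 K ⧸ I)`). -/
def StDC : Prop := ∀ (K : Type) [Field K] [NumberField K] (T : ℝ), Gen K T →
  ∀ I : Ideal (𝓞 K), I ≠ ⊥ → ∀ B : ℝ,
    nm K I * ni K I B ≤ nb K (B + T ^ 2 * nm K I ^ (1 / (dg K : ℝ))) ∧
    nb K (B - T ^ 2 * nm K I ^ (1 / (dg K : ℝ))) ≤ nm K I * ni K I B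

/-- (RG, assume `hD : StDC`.) Regularity of the number of points. PROOF. For a natural number `q ≥ 1` the ideal `(q)` has norm `q ^ d`, and
`ni (q) B = nb (B / q)` (`y ↦ q y`). So DC gives (i) `q ^ d nb (B / q - T ^ 2) ≤ nb B` (DC at `B - T ^ 2 q`) and
(ii) `nb B ≤ q ^ d nb (B / q + T ^ 2)` (DC at `B + T ^ 2 q`). (1) `q = ⌈1 / δ⌉ ≤ 2 / δ`, `q' = ⌈(1 + 2 δ) q⌉ ≤ (1 + 3 δ) q`. For
`B' = (1 + δ) B`: `B' / q' + T ^ 2 ≤ (B / q)(1 - δ / 3) + T ^ 2 ≤ B / q - T ^ 2`, because `(B / q) δ / 3 ≥ B δ ^ 2 / 6 ≥ 2 T ^ 2`. By (ii)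
`nb B' ≤ q' ^ d nb (B / q - T ^ 2) ≤ (q' / q) ^ d nb B`. (2) `B' = 2 T ^ 2 B`, `q' = ⌈4 T ^ 2⌉ ≤ 5 T ^ 2`,
`B' / q' + T ^ 2 ≤ B / 2 + T ^ 2 ≤ B`. (3) The elements `∑ c_i α ^ i` with integers `|c_i| ≤ B / T` are different and in the ball, and
there are `(2 ⌊B / T⌋ + 1) ^ d ≥ (B / T) ^ d` of them. -/
def StRG : Prop := ∀ (K : Type) [Field K] [NumberField K] (T : ℝ), Gen K T → ∀ B : ℝ,
  (∀ δ : ℝ, 0 < δ → δ ≤ 1 → 12 * T ^ 2 / δ ^ 2 ≤ B →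
    nb K ((1 + δ) * B) ≤ (1 + 3 * δ) ^ dg K * nb K B) ∧
  (2 * T ^ 2 ≤ B → nb K (2 * T ^ 2 * B) ≤ (5 * T ^ 2) ^ dg K * nb K B) ∧
  (0 ≤ B → (B / T) ^ dg K ≤ nb K B)

/-- (EQ, assume `hD : StDC`, `hR : StRG`.) Equidistribution. PROOF. `R = T ^ 2 nm ^ (1/d) ≤ B / W`. Upper bound: DC, monotonicity and RG (1) with
`δ = 1 / W`: `nm · ni ≤ nb ((1 + 1/W) B) ≤ (1 + 3/W) ^ d nb B ≤ exp (3 d / W) nb B ≤ (1 + 6 d / W) nb B` (`3 d / W ≤ 1/4`). Lower bound: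
`B'' = (1 - 1/W) B`, `B = (1 + δ) B''` with `δ = 1 / (W - 1) ≤ 2 / W`, `12 T ^ 2 / δ ^ 2 ≤ B''`, so
`nb B ≤ (1 + 6 / W) ^ d nb B'' ≤ exp (6 d / W) nb B''` and `nm · ni ≥ nb B'' ≥ exp (- 6 d / W) nb B`. -/
def StEQ : Prop := ∀ (K : Type) [Field K] [NumberField K] (T : ℝ), Gen K T →
  ∀ (W B : ℝ) (I : Ideal (𝓞 K)), 12 * (dg K : ℝ) ≤ W → 24 * T ^ 2 * W ^ 2 ≤ B → I ≠ ⊥ →
    T ^ 2 * nm K I ^ (1 / (dg K : ℝ)) * W ≤ B →
    |nm K I * ni K I B - nb K B| ≤ 6 * (dg K : ℝ) / W * nb K B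

/-- (UB, assume `hD : StDC`, `hR : StRG`.) PROOF. `nm ^ (1/d) ≤ B`, so `B + R ≤ (1 + T ^ 2) B ≤ 2 T ^ 2 B`; DC and RG (2). -/
def StUB : Prop := ∀ (K : Type) [Field K] [NumberField K] (T : ℝ), Gen K T →
  ∀ (B : ℝ) (I : Ideal (𝓞 K)), 2 * T ^ 2 ≤ B → I ≠ ⊥ → nm K I ≤ B ^ dg K →
    nm K I * ni K I B ≤ (5 * T ^ 2) ^ dg K * nb K B

/-- (LG, assume `hR : StRG`.) The average of `log |N x|`. `nm (span {x}) = |N x| = ∏_φ ‖φ x‖`, there are `d` embeddings `φ`. PROOF. (i) For an embedding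
`φ` and `η ≥ 0` let `E = {x ∈ ball B : ‖φ x‖ ≤ η B}`, `q₀ = ⌊2 η B⌋ + 1 > 2 η B`. The translates `E + k q₀`, `0 ≤ k ≤ B / q₀`, are
pairwise disjoint (look at `φ`) and in the ball of radius `2 B`; so `#E ≤ (q₀ / B) nb (2 B) ≤ (2 η + 1 / B) 4 ^ d nb B` by RG (1),
`δ = 1`. (ii) For `x ≠ 0` in the ball: `1 ≤ |N x| ≤ ‖φ x‖ B ^ (d-1)`, so `0 ≤ log (B / ‖φ x‖) ≤ d log B`, and this number is at most
the number of integers `k ≥ 0` with `‖φ x‖ ≤ e ^ (-k) B`. Sum over `x`: with (i), `η = e ^ (-k)`, for `k ≥ 2 d` and the trivial bound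
for `k < 2 d`: at most `nb B (2 d + ∑_{k ≥ 2 d} 2 · 4 ^ d e ^ (-k) + (d log B + 1) 4 ^ d / B) ≤ nb B (2 d + 3)`, as `4 < e ^ 2`. Sum over
the `d` embeddings. -/
def StLG : Prop := ∀ (K : Type) [Field K] [NumberField K] (T : ℝ), Gen K T →
  ∀ B : ℝ, 12 * T ^ 2 ≤ B → 4 ^ dg K * ((dg K : ℝ) * Real.log B + 1) ≤ B →
    ∑ x ∈ ball0 K B, ((dg K : ℝ) * Real.log B - Real.log (nm K (Ideal.span {x}))) ≤
      8 * (dg K : ℝ) ^ 2 * nb K B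

open Classical in
/-- (FI, no hypotheses.) Factorization. PROOF. `absNorm` is multiplicative and `(x) = ∏ P ^ v_P`, so
`log nm (x) = ∑_P v_P log nm P = ∑_P ∑_{1 ≤ k ≤ v_P} log nm P`; `x ∈ P ^ k` iff `P ^ k ∣ (x)` iff `k ≤ v_P`, and then
`nm P ^ k ≤ nm (x) ≤ Y`, `k ≤ Y` (`nm P ≥ 2`). -/
def StFI : Prop := ∀ (K : Type) [Field K] [NumberField K] (x : 𝓞 K) (Y : ℕ), x ≠ 0 →
  Ideal.absNorm (Ideal.span {x}) ≤ Y →
    Real.log (nm K (Ideal.span {x})) =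
      ∑ v ∈ (pp K Y).filter (fun v => x ∈ v.1 ^ v.2), Real.log (nm K v.1)

/-- (KU, assume `hE : StEQ`, `hF : StFI`, `hR : StRG`.) Upper bound. PROOF. `B = T ^ 2 W Y ^ (1/d)`, `24 T ^ 2 W ^ 2 ≤ B`. For `x ≠ 0` in the ball
`log |N x| ≤ d log B`; by FI `∑_{x ≠ 0} log |N x| ≥ ∑_{P ∈ pI Y} log nm P (ni P B - 1)` (the terms `k = 1`; `0 ∈ P`). EQ for `P`
(`nm P ≤ Y`): `ni P B ≥ (1 - 6 d / W) nb B / nm P`, and `nb B / nm P ≥ (B / T) ^ d / Y = (T W) ^ d ≥ W`, so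
`ni P B - 1 ≥ (1 - 7 d / W) nb B / nm P`. Hence `(1 - 7 d / W) S1 ≤ d log B`, `S1 ≤ d log B (1 + 14 d / W) ≤ d log B + 1`, and
`d log B = log Y + d log (T ^ 2 W)`. -/
def StKU : Prop := ∀ (K : Type) [Field K] [NumberField K] (T : ℝ), Gen K T →
  ∀ (W : ℝ) (Y : ℕ), 14 * (dg K : ℝ) ≤ W → (24 * W) ^ dg K ≤ (Y : ℝ) →
    14 * (dg K : ℝ) ^ 2 * Real.log (T ^ 2 * W * (Y : ℝ) ^ (1 / (dg K : ℝ))) ≤ W →
    S1 K Y ≤ Real.log Y + (dg K : ℝ) * Real.log (T ^ 2 * W) + 1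

open Classical in
/-- (B2, assume `hU : StUB`.) Large prime powers. PROOF. For a prime `P` let `j = j(P)` be the least `j ≥ 2` with `nm P ^ j > Y ^ (1/2)`. If `x`, `P`,
`k` are as in the set then `j ≤ k`, so `x ∈ P ^ j` and `nm P ^ j ≤ |N x| ≤ B ^ d`; by UB the number of these `x` is at most
`(5 T ^ 2) ^ d nb B ∑_P nm P ^ (- j(P))`, and `nm P ^ (- j) ≤ min (nm P ^ (-2)) (Y ^ (-1/2))`. For every `n` there are at most `d` primes `P`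
with `nm P = n` (they lie over one rational prime), and `∑_{n ≥ 2} min (n ^ (-2)) (Y ^ (-1/2)) ≤ 3 Y ^ (-1/4)` (split at
`Y ^ (1/4)`). -/
def StB2 : Prop := ∀ (K : Type) [Field K] [NumberField K] (T : ℝ), Gen K T →
  ∀ (B : ℝ) (Y : ℕ), 2 * T ^ 2 ≤ B → 1 ≤ Y →
    (((ball0 K B).filter (fun x : 𝓞 K => ∃ (P : Ideal (𝓞 K)) (k : ℕ), P.IsPrime ∧ P ≠ ⊥ ∧
      2 ≤ k ∧ (Y : ℝ) < nm K P ^ k ∧ x ∈ P ^ k)).card : ℝ) ≤
    3 * (dg K : ℝ) * (5 * T ^ 2) ^ dg K * (Y : ℝ) ^ (-(1 / 4) : ℝ) * nb K B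

open Classical in
/-- (TK, assume `hE : StEQ`.) Turan-Kubilius. PROOF. `e = 6 d / W ≤ 1/2`, `om(x)` = number of `P ∈ 𝒫` with `x ∈ P`. By EQ
`∑_x om(x) = ∑_P ni P B ≥ (1 - e) G nb B`, and for `P ≠ P'` in `𝒫` (`x ∈ P` and `x ∈ P'` iff `x ∈ P P'`)
`∑_x om(x) ^ 2 = ∑_{P ≠ P'} ni (P P') B + ∑_P ni P B ≤ (1 + e)(G ^ 2 + G) nb B`. So `∑_x (om(x) - G) ^ 2 ≤ (2 G + 3 e G ^ 2) nb B`, and
every `x` with `om(x) = 0` contributes `G ^ 2`. -/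
def StTK : Prop := ∀ (K : Type) [Field K] [NumberField K] (T : ℝ), Gen K T →
  ∀ (W B : ℝ) (Ps : Finset (Ideal (𝓞 K))), 12 * (dg K : ℝ) ≤ W → 24 * T ^ 2 * W ^ 2 ≤ B →
    (∀ P ∈ Ps, P.IsPrime ∧ P ≠ ⊥) →
    (∀ P ∈ Ps, ∀ P' ∈ Ps, T ^ 2 * (nm K P * nm K P') ^ (1 / (dg K : ℝ)) * W ≤ B) →
    0 < ∑ P ∈ Ps, 1 / nm K P →
    (((ball K B).filter (fun x : 𝓞 K => ∀ P ∈ Ps, x ∉ P)).card : ℝ) ≤
      (2 / (∑ P ∈ Ps, 1 / nm K P) + 18 * (dg K : ℝ) / W) * nb K B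

/-- (KL, assume `hE : StEQ`, `hF : StFI`, `hR : StRG`, `hL : StLG`, `hB : StB2`, `hT : StTK`.) Lower bound. PROOF. `B = T ^ 2 W Y ^ (1/d)`, so
`B ^ d / Y = (T ^ 2 W) ^ d =: V`. If `log Y ≤ Sst` nothing is to show. By LG `∑_{x ≠ 0} log |N x| ≥ d log B (nb B - 1) - 8 d ^ 2 nb B`.
By FI (with `⌊B ^ d⌋` for `Y`) the sum is `∑_{x ≠ 0} ∑_{(P, k), x ∈ P ^ k} log nm P`. The pairs with `nm P ^ k ≤ Y` contribute at
most `∑_{(P, k) ∈ pp Y} log nm P · ni (P ^ k) B ≤ (1 + 6 d / W) nb B · Sst` (EQ). For given `x` the other pairs contribute at most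
`log |N x| ≤ d log B`, and there are such pairs only if (1) `x` is in a prime `P` with `nm P > Y`, or (2) `x` is in the set of
B2. In case (1) `(x) = P J` with `nm J ≤ B ^ d / Y = V`, so `x ∉ Q` for every prime `Q` with `V < nm Q ≤ z` (`Q ≠ P` as `z ≤ Y`); by TK
(`z ^ 2 ≤ Y`) there are at most `(2 / G + 18 d / W) nb B` such `x`. Divide by `nb B`:
`(1 + 6 d / W) Sst ≥ d log B - d log B / nb B - 8 d ^ 2 - d log B (2 / G + 18 d / W) - d log B · 3 d (5 T ^ 2) ^ d Y ^ (-1/4)`. As `d log B ≥ log Y`,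
`d log B ≤ 2 log Y ≤ nb B` (RG (3)), `36 d log Y ≤ W` and `Sst ≤ log Y` (used for `6 d / W · Sst ≤ 1`) this gives
`Sst ≥ log Y - 8 d ^ 2 - 4 - 4 log Y / G`. -/
def StKL : Prop := ∀ (K : Type) [Field K] [NumberField K] (T : ℝ), Gen K T →
  ∀ (W B G : ℝ) (Y z : ℕ), B = T ^ 2 * W * (Y : ℝ) ^ (1 / (dg K : ℝ)) → 14 * (dg K : ℝ) ≤ W →
    (24 * W) ^ dg K ≤ (Y : ℝ) → 4 ^ dg K * ((dg K : ℝ) * Real.log B + 1) ≤ B →
    (dg K : ℝ) * Real.log B ≤ 2 * Real.log Y → 36 * (dg K : ℝ) * Real.log Y ≤ W →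
    (dg K : ℝ) * Real.log B * (3 * (dg K : ℝ) * (5 * T ^ 2) ^ dg K * (Y : ℝ) ^ (-(1 / 4) : ℝ)) ≤ 1 →
    z ^ 2 ≤ Y → G = ∑ P ∈ (pI K z).filter (fun P => (T ^ 2 * W) ^ dg K < nm K P), 1 / nm K P → 0 < G →
    Real.log Y - 8 * (dg K : ℝ) ^ 2 - 6 - 4 * Real.log Y / G ≤ Sst K Y

/-- (DG, no hypotheses.) Primes of higher degree and higher powers. PROOF. The pairs `(P, k) ∈ pp Y` other than those with `nm P` prime and `k = 1` have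
`nm P ^ k = p ^ m`, `m ≥ 2`, `log nm P ≤ m log p`; for given `p`, `m` there are at most `d` of them (at most `d` primes over `p`, and `P` determines
`k`). So the difference is at most `d ∑_p ∑_{m ≥ 2} m log p / p ^ m ≤ 6 d ∑_p log p / p ^ 2 ≤ 40 d`
(`∑_{m ≥ 2} m x ^ m = x ^ 2 (2 - x) / (1 - x) ^ 2 ≤ 6 x ^ 2` for `x ≤ 1/2`). -/
def StDG : Prop := ∀ (K : Type) [Field K] [NumberField K] (Y : ℕ),
  Sst K Y ≤ Sd K Y + 40 * (dg K : ℝ)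

/-! ### the field of a polynomial -/

/-- (GF, no hypotheses.) PROOF. `K = AdjoinRoot (f.map (Int.castRingHom ℚ))`; `f` is irreducible over `ℚ` (Gauss). -/
def StGF : Prop := ∀ (Λ : ℝ) (f : ℤ[X]), Adm Λ f → ∃ (K : Type) (_ : Field K) (_ : NumberField K) (θ : K),
  aeval θ f = 0 ∧ dg K = f.natDegree

/-- (GE, no hypotheses.) PROOF. `H = exp Λ`, `d = dg K ≤ Λ`. `α = lc(f) θ` is an algebraic integer, `K = ℚ(θ)` (degree `d` and `f` irreducible), so the powers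
`α ^ i`, `i < d`, are linearly independent. Every root of `f` in `ℂ` is at most `1 + H` in absolute value (`|lc| ≥ 1`), so
`‖φ α‖ ≤ H (1 + H) ≤ 2 H ^ 2`, and `d (2 H ^ 2) ^ d ≤ exp (log Λ + Λ (2 Λ + log 2)) ≤ exp (3 Λ ^ 2)` for large `Λ`. -/
def StGE : Prop := ∃ Λ₀ : ℝ, ∀ Λ : ℝ, Λ₀ ≤ Λ → ∀ f : ℤ[X], Adm Λ f →
  ∀ (K : Type) [Field K] [NumberField K] (θ : K), aeval θ f = 0 → dg K = f.natDegree →
    Gen K (Real.exp (3 * Λ ^ 2))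

/-- (BI, no hypotheses.) PROOF. `α = lc θ`, `H = exp Λ`. Let `D = |discr (1, α, ..., α ^ (d-1))|`, a positive integer with `D 𝓞 K ⊆ ℤ[α]`; it is the
square of the absolute value of the determinant of `(σ_i α ^ j)`, so `D ≤ (d! (2 H ^ 2) ^ (d ^ 2)) ^ 2` and
`log D ≤ 2 (Λ log Λ + Λ ^ 2 (2 Λ + 1))`. Take `Δ = |lc| D`. Let `p ∤ Δ`. Primes `P` of norm `p` correspond to ring homomorphisms
`𝓞 K → ℤ/p`; these are determined by their restriction to `ℤ[α]` (multiply by `D`, invertible modulo `p`), and every homomorphism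
`ψ : ℤ[α] → ℤ/p` extends by `x ↦ ψ(D x) / D`. Homomorphisms of `ℤ[α] = ℤ[X] / (g)`, `g` the minimal polynomial of `α`, correspond to
the roots of `g` modulo `p`, and as `g(lc X) = lc ^ (d-1) f(X)` and `p ∤ lc` to the roots of `f` modulo `p`. -/
def StBI : Prop := ∃ C Λ₀ : ℝ, 0 < C ∧ ∀ Λ : ℝ, Λ₀ ≤ Λ → ∀ f : ℤ[X], Adm Λ f →
  ∀ (K : Type) [Field K] [NumberField K] (θ : K), aeval θ f = 0 → dg K = f.natDegree →
    ∃ Δ : ℕ, 1 ≤ Δ ∧ Real.log Δ ≤ C * Λ ^ 3 ∧ ∀ p : ℕ, p.Prime → ¬ p ∣ Δ →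
      ((pI K p).filter (fun P => Ideal.absNorm P = p)).card = rho f p

/-- (PD, no hypotheses.) PROOF. `log p ≤ √p`; the `k`-th prime factor is at least `k`, so `∑ 1 / √p ≤ ∑_{k ≤ ω} 1 / √k ≤ 2 √ω`, and
`2 ^ ω ≤ n`, `ω ≤ 1.45 log n`. -/
def StPD : Prop := ∀ n : ℕ, 1 ≤ n → ∑ p ∈ n.primeFactors, Real.log p / p ≤ 3 * √(Real.log n)

/-- (RO, no hypotheses.) Roots modulo `p`. PROOF. `f` is primitive, so not zero modulo `p`. -/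
def StRO : Prop := ∀ (Λ : ℝ) (f : ℤ[X]), Adm Λ f → ∀ p : ℕ, p.Prime → rho f p ≤ f.natDegree

/-- (MT, assume `hKU : StKU`, `hKL : StKL`, `hDG : StDG`, `hGF : StGF`, `hGE : StGE`, `hBI : StBI`, `hPD : StPD`, `hRO : StRO`.) The uniform Mertens theorem.
PROOF. `K`, `θ` from GF, `T = exp (3 Λ ^ 2)`, `W = exp Λ`, `d log (T ^ 2 W) ≤ 7 Λ ^ 3`. `Δ` from BI. `|Sf f Y - Sd K Y| ≤ Λ ^ 3` for large
`Λ`: the terms with `p ∤ Δ`, `p > 2 d` agree; for `p ∣ Δ` both are at most `d log p / p` (at most `d` primes over `p`; RO), in total at most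
`2 d · 3 √(C Λ ^ 3)` by PD; the primes `p ≤ 2 d` contribute at most `∑_{p ≤ 2 d} log p ≤ 2 Λ log (2 Λ)` to `Sd` (`#{P : nm P = p} = rho ≤ p`
if `p ∤ Δ`). (1) If `(24 W) ^ d ≤ Y` use KU: `14 d · d log B ≤ 14 Λ (exp (Λ / 4) + 7 Λ ^ 3) ≤ W`, and `Sd ≤ S1`. If `Y` is smaller, `Sf f`
is monotone: compare with `Y₀ = ⌈(24 W) ^ d⌉`, `log Y₀ ≤ 3 Λ ^ 2`. (2) KL and DG; all conditions hold for large `Λ` and `C₀ ≥ 100`:
`d log B = log Y + d log (T ^ 2 W) ≤ 2 log Y`; `36 Λ exp (Λ / 4) ≤ exp Λ`; the last condition since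
`log (6 Λ exp (Λ / 4)) + Λ log 5 + 6 Λ ^ 3 ≤ C₀ Λ ^ 3 / 4`. The sum `G` of KL is at least the sum over the rational primes `p ≤ z` with
`log p > C₀ Λ ^ 3` of `rho f p / p`: such `p` do not divide `Δ`, are `> 2 d` and larger than `(T ^ 2 W) ^ d`. -/
def StMT : Prop := ∃ C₀ Λ₀ : ℝ, 1 ≤ C₀ ∧ 1 ≤ Λ₀ ∧ ∀ Λ : ℝ, Λ₀ ≤ Λ → ∀ f : ℤ[X], Adm Λ f →
  (∀ Y : ℕ, 1 ≤ Y → Real.log Y ≤ Real.exp (Λ / 4) → Sf f Y ≤ Real.log Y + C₀ * Λ ^ 3) ∧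
  (∀ (Y z : ℕ) (G : ℝ), C₀ * Λ ^ 3 ≤ Real.log Y → Real.log Y ≤ Real.exp (Λ / 4) → z ^ 2 ≤ Y →
    G = ∑ p ∈ (range (z + 1)).filter (fun p : ℕ => p.Prime ∧ C₀ * Λ ^ 3 < Real.log p), gf f p → 0 < G →
    Real.log Y - C₀ * Λ ^ 3 - 4 * Real.log Y / G ≤ Sf f Y)

end Pool.Agent.Helper9.UP
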