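import Pool.Agent.Helper9.UP.DefsS
import Pool.Agent.Helper9.UP.StN

/-!
# Project UP (MP_d466de), part S: the fundamental lemma of the sieve for `f`, uniformly in `f`

The density `gf f p = rho f p / p` is at most `d / p`, `d ≤ Λ`, but `1 / p` on average for `log p ≥ C₀ Λ ^ 3` (StMT). Brun-Hooley sieve
with longer truncation for the small primes. The files `Helper18/TR/FS.lean`, `Helper30/TR/BO.lean`, `Helper18/TR/FM.lean`,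
`Helper96/TR/LV.lean`, `Helper96/TR/SB.lean` prove the same statements for the special case `β i = b + 2 i` and constant dimension: adapt them.
Proved facts: `Pool.Agent.Helper96.TR` `pf_Sym`, `pf_Esymm` (`StSym`, `StEsymm`), `Pool.Agent.Helper18.TR.range_ : StRange`.
-/

set_option autoImplicit false

noncomputable section

namespace Pool.Agent.Helper9.UP

open Finset Polynomial
open Pool.Agent.Helper18.TR (idx Qi Yy StSym StEsymm StRange)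

/-- (FC, no hypotheses.) Factorization over the ranges. PROOF. As `StFact0`, `StFact1` (`fs_gen` in `Helper18/TR/FS.lean` is already general);
`idx w p ≤ w` always. A set `T` in `fb1` determines `i`; the sign is `(-1) ^ (β i + 1) = - 1`. -/
def StFC : Prop := ∀ (w : ℕ) (β : ℕ → ℕ) (Q : Finset ℕ) (g : ℕ → ℝ),
  Disjoint (fb0 w β Q) (fb1 w β Q) ∧
  MW (fb0 w β Q) g = ∏ i ∈ range (w + 1), Yy (β i) (Qi w Q i) g ∧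
  ((∀ i, Even (β i)) → MW (fb1 w β Q) g =
    - ∑ i ∈ range (w + 1), Pool.Agent.Helper18.TR.ee (β i + 1) (Qi w Q i) g *
      ∏ j ∈ (range (w + 1)).erase i, Yy (β j) (Qi w Q j) g)

/-- (BO, assume `hF : StFC`, `hS : StSym`, `hE : StEsymm`.) PROOF. As `Helper30/TR/BO.lean` (`bo_lower`): with `V_i = ∏_{Qi} (1 - g)`,
`V_i ≤ Y_i ≤ V_i + ee_i` and `∏ V_i ≥ ∏ Y_i - ∑ (Y_i - V_i) ∏_{j ≠ i} Y_j`. -/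
def StBO : Prop := ∀ (w : ℕ) (β : ℕ → ℕ) (Q : Finset ℕ) (g : ℕ → ℝ), (∀ i, Even (β i)) →
  (∀ p ∈ Q, 0 ≤ g p ∧ g p ≤ 1) →
  MW (fb0 w β Q ∪ fb1 w β Q) g ≤ ∏ p ∈ Q, (1 - g p) ∧ ∏ p ∈ Q, (1 - g p) ≤ MW (fb0 w β Q) g

/-- (MN, assume `hF : StFC`, `hS : StSym`, `hE : StEsymm`.) The main term. PROOF. Let `V_i = ∏_{Qi w Q i} (1 - g)`, `G_i = ∑_{Qi w Q i} g ≤ β_i / 60`,
`1 - x ≥ exp (- 2 x)` on `[0, 1/2]`. Then `ee_i / V_i ≤ e ^ (2 G_i) G_i ^ (β_i + 1) / (β_i + 1)! ≤ e ^ (β_i / 30) (e G_i / (β_i + 1)) ^ (β_i + 1) ≤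
e ^ (β_i / 30) (e / 60) ^ (β_i + 1) ≤ exp (- 3 β_i - 3) =: δ_i` (`log 60 - 1 > 3.09`; `n! ≥ (n / e) ^ n`). Upper bound: `∏ Y_i ≤ ∏ V_i (1 + δ_i) ≤ e ^ η ∏ V_i`,
`e ^ η ≤ 1 + 2 η`. Lower bound: `∏ Y_i - ∑ ee_i ∏_{j ≠ i} Y_j ≥ ∏ Y_i (1 - ∑ ee_i / V_i) ≥ (1 - η) ∏ V_i`. -/
def StMN : Prop := ∀ (w : ℕ) (β : ℕ → ℕ) (Q : Finset ℕ) (g : ℕ → ℝ) (η : ℝ), (∀ i, Even (β i)) →
  (∀ p ∈ Q, 0 ≤ g p ∧ g p ≤ 1 / 2) →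
  (∀ i ∈ range (w + 1), 60 * ∑ p ∈ Qi w Q i, g p ≤ (β i : ℝ)) →
  ∑ i ∈ range (w + 1), Real.exp (-(3 * (β i : ℝ)) - 3) ≤ η → η ≤ 1 / 2 →
  MW (fb0 w β Q) g ≤ (1 + 2 * η) * ∏ p ∈ Q, (1 - g p) ∧
  (1 - 2 * η) * ∏ p ∈ Q, (1 - g p) ≤ MW (fb0 w β Q ∪ fb1 w β Q) g

/-- (LV, no hypotheses.) The level. PROOF. `p` in the range `i` has `p ^ (2 ^ i) ≤ w`, so `log p ≤ log w / 2 ^ i`; every range has at most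
`β i + 1` primes of `T`. -/
def StLV : Prop := ∀ (w : ℕ) (β : ℕ → ℕ) (Q : Finset ℕ), 1 ≤ w → (∀ p ∈ Q, p.Prime ∧ p ≤ w) →
  ∀ T ∈ fb0 w β Q ∪ fb1 w β Q,
    ∑ p ∈ T, Real.log p ≤ ∑ i ∈ range (w + 1), ((β i : ℝ) + 1) * (Real.log w / 2 ^ i)

/-- (RS, assume `hMT : StMT`, `hRO : StRO`, `hRg : StRange`.) Sums over one range. PROOF. First: `gf f p ≤ d / p ≤ Λ / p` and StRange. Second: let
`t = log w / 2 ^ i`; the primes of the range satisfy `t / 2 < log p ≤ t`, so the sum is at most `(2 / t) Sf f ⌊exp t⌋ ≤ (2 / t)(t + C₀ Λ ^ 3) ≤ 4`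
by the upper bound of MT (`t ≤ exp (Λ / 8)`) if `t ≥ C₀ Λ ^ 3`. -/
def StRS : Prop := ∃ C Λ₀ : ℝ, 1 ≤ C ∧ 1 ≤ Λ₀ ∧ ∀ Λ : ℝ, Λ₀ ≤ Λ → ∀ f : ℤ[X], Adm Λ f →
  ∀ w i : ℕ, 2 ≤ w → Real.log w ≤ Real.exp (Λ / 8) →
    ∑ p ∈ Qi w (Qf f w) i, gf f p ≤ C * Λ ∧
    (C * Λ ^ 3 ≤ Real.log w / 2 ^ i → ∑ p ∈ Qi w (Qf f w) i, gf f p ≤ 4)

/-- (FL, assume `hB : StBO`, `hM : StMN`, `hL : StLV`, `hR : StRS`, `hRO : StRO`.) The fundamental lemma. PROOF. `C` from RS, `s = ⌈log (1 / ε)⌉₊`, `Q = Qf f w`,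
`gf f p ≤ d / p < 1/2` on `Q`. Let `t_i = log w / 2 ^ i` and `β_i = 2 (180 + s + i)` if `C Λ ^ 3 ≤ t_i`, `β_i = 2 (⌈30 C Λ⌉₊ + 180 + s + i)` otherwise;
`F0 = fb0`, `F1 = fb0 ∪ fb1` (so `F0 ∪ F1 = fb0 ∪ fb1`). By RS `60 ∑_{Qi} g ≤ 240 ≤ β_i`, respectively `≤ 60 C Λ ≤ β_i`.
`η = ∑ exp (- 3 β_i - 3) ≤ ∑_i exp (- 6 (180 + s + i) - 3) ≤ e ^ (- s - 1)`, so `η ≤ 1/2`, `2 η ≤ ε`. Level (LV): the `i` with `t_i ≥ C Λ ^ 3`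
contribute at most `∑ (361 + 2 s + 2 i) t_i ≤ (726 + 4 s) log w`. Let `i₀` be the first `i` with `t_i < C Λ ^ 3` (if there is one in the range); the
`i = i₀ + j` contribute at most `∑_j (60 C Λ + 363 + 2 s + 2 i₀ + 2 j) t_{i₀} / 2 ^ j ≤ 2 (60 C Λ + 365 + 2 s) C Λ ^ 3 + 4 i₀ t_{i₀}`, and
`i₀ t_{i₀} ≤ log w` (`i ≤ 2 ^ i`). -/
def StFL : Prop := ∀ ε : ℝ, 0 < ε → ε ≤ 1 → ∃ Bs Λ₀ : ℝ, 1 ≤ Bs ∧ ∀ Λ : ℝ, Λ₀ ≤ Λ → ∀ f : ℤ[X], Adm Λ f →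
  ∀ w : ℕ, 2 ≤ w → Real.log w ≤ Real.exp (Λ / 8) →
    ∃ F0 F1 : Finset (Finset ℕ), FLp f w (Bs * (Real.log w + Λ ^ 4)) ε F0 F1

/-- (EX, assume `hR : StRS`, `hRO : StRO`.) PROOF. `C` from RS. The primes `p ≤ 2 d` contribute `0`, the others lie in `Qf f Y`, in the ranges
`i` (`w = Y`). There are at most `Λ / (8 log 2) + 1` values `i` with `C Λ ^ 3 ≤ log Y / 2 ^ i` (`2 ^ i ≤ log Y ≤ exp (Λ / 8)`), each contributes at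
most `4`. The other `i` with a prime in the range have `log 2 ≤ log Y / 2 ^ i < C Λ ^ 3`: at most `log₂ (2 C Λ ^ 3) + 1` values, each contributes at
most `C Λ`. Sum `≤ Λ ^ 2` for large `Λ`. Second: `gf f p ≤ 1/2`, `1 - x ≥ exp (- 2 x)` on `[0, 1/2]`. -/
def StEX : Prop := ∃ Λ₀ : ℝ, 1 ≤ Λ₀ ∧ ∀ Λ : ℝ, Λ₀ ≤ Λ → ∀ f : ℤ[X], Adm Λ f → ∀ Y : ℕ,
  Real.log Y ≤ Real.exp (Λ / 8) →
    ∑ p ∈ (range (Y + 1)).filter Nat.Prime, gf f p ≤ Λ ^ 2 ∧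
    Real.exp (-(2 * Λ ^ 2)) ≤ VV f Y

/-- (VR, assume `hMT : StMT`, `hRO : StRO`.) PROOF. `u = log w`, `u' = log w'`. `gf f p ≤ 1/2`, `- log (1 - x) ≤ x + x ^ 2` on `[0, 1/2]`, so
`log (VV f w / VV f w') ≤ ∑_{w < p ≤ w'} (gf f p + gf f p ^ 2)`, and `∑ gf f p ^ 2 ≤ d ^ 2 ∑_{n > w} n ^ (-2) ≤ Λ ^ 2 / w ≤ 1`. Abel summation
with `S(n) = Sf f n`, `0 ≤ S(n) ≤ log n + C₀ Λ ^ 3` (MT):
`∑_{w < p ≤ w'} gf f p = ∑_{w < n ≤ w'} (S(n) - S(n-1)) / log n ≤ S(w') / u' + ∑_{w < n < w'} S(n) (1 / log n - 1 / log (n+1))`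
`≤ 1 + C₀ Λ ^ 3 / u' + ∑ (log (n+1) - log n) / log (n+1) + C₀ Λ ^ 3 / u ≤ log (u' / u) + 1 + 2 C₀ Λ ^ 3 / u ≤ log (u' / u) + 3` if `C ≥ C₀`. -/
def StVR : Prop := ∃ C Λ₀ : ℝ, 1 ≤ C ∧ ∀ Λ : ℝ, Λ₀ ≤ Λ → ∀ f : ℤ[X], Adm Λ f → ∀ w w' : ℕ,
  C * Λ ^ 3 ≤ Real.log w → w ≤ w' → Real.log w' ≤ Real.exp (Λ / 4) →
    VV f w ≤ Real.exp 4 * (Real.log w' / Real.log w) * VV f w'

end Pool.Agent.Helper9.UP
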