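import Pool.Agent.Helper9.UP.DefsS

/-!
# Project UP (MP_d466de), part W: linear sieve weights for every regular density

The same construction as in `Helper9/TW` (parts W and D), simpler: no factorization of the weights, but a general density `g` that is regular
on the boxes, and main terms with an error `η` instead of limits. In the proofs `X ≥ 2` (from `Reg`), `z_i = X ^ (i ω)`, `G_j = ∑_{p ∈ bx X ω j} g p`. The primes of box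
`i` are those with `z_i ≤ p < z_(i+1)`. Compare the proved modules of TW (`Helper9/TW/All.lean` lists them).
-/

set_option autoImplicit false

noncomputable section

namespace Pool.Agent.Helper9.UP

open Finset Polynomial
open Pool.Agent.Helper9.TW (gm Ax GUp GLo)

/-- (WB, no hypotheses.) Multiplication by the primes of a box `j' ≥ j`. PROOF. (1) If `l (q / p) ≠ 0` for a prime `p ∈ bx j'`, `p ∣ q`, then `q / p` has only primes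
of boxes `i < j ≤ j'`, all `< z_(i+1) ≤ z_(j') ≤ p`; so `p` is the only prime of box `j'` dividing `q` and `p ∤ q / p`. Hence `|bm l q| ≤ B`, `q` is squarefree, with primes in
`Pr j0 (j' + 1)`, and `q = p (q / p) ≤ X ^ ((j' + 1) ω) X ^ x`. (2) `∑_q GG g q ∑_{p ∣ q} l (q / p) = ∑_p ∑_{q'} l q' g p GG g q'`; if `l q' ≠ 0` then
`q' ≤ X ^ x` and `p q' ≤ X ^ (x + (j' + 1) ω) ≤ X ^ 2`, both in the range. (3) `∑_{q ∣ n} bm l q = ∑_{p ∈ bx j', p ∣ n} ∑_{q' ∣ n / p} l q'` and `q'` is prime to `p` if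
`l q' ≠ 0`, so `q' ∣ n / p` iff `q' ∣ n`. -/
def StWB : Prop := ∀ (X ω x B : ℝ) (j0 j j' : ℕ) (g l : ℕ → ℝ), 2 ≤ X → 0 < ω → 0 ≤ x → 0 ≤ B →
  j0 ≤ j → j ≤ j' → Wt X ω j0 j x B l →
    Wt X ω j0 (j' + 1) (x + ((j' : ℝ) + 1) * ω) B (bm X ω j' l) ∧
    (x + ((j' : ℝ) + 1) * ω ≤ 2 →
      ms X g (bm X ω j' l) = (∑ p ∈ bx X ω j', g p) * ms X g l) ∧
    ∀ n : ℕ, 1 ≤ n → ∑ q ∈ n.divisors, bm X ω j' l q = (ej X ω j' n : ℝ) * ∑ q ∈ n.divisors, l q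

/-- (WP, no hypotheses.) Pairs. PROOF. `p p' < X ^ (2 (j + 1) ω)`; `pr2` counts the pairs `p < p'` of primes of the box dividing `n`; all products are in the range of `ms` or not,
in any case the main term is at most `∑_{p < p'} g p g p' ≤ (∑ g) ^ 2 / 2` (`g ≥ 0`). -/
def StWP : Prop := ∀ (X ω : ℝ) (j0 j : ℕ) (g : ℕ → ℝ), 2 ≤ X → 0 < ω → j0 ≤ j → (∀ p, 0 ≤ g p) →
    Wt X ω j0 (j + 1) (2 * (((j : ℝ) + 1) * ω)) 1 (pr2 X ω j) ∧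
    ms X g (pr2 X ω j) ≤ (∑ p ∈ bx X ω j, g p) ^ 2 / 2 ∧
    ∀ n : ℕ, 1 ≤ n → ∑ q ∈ n.divisors, pr2 X ω j q = (ej X ω j n : ℝ) * ((ej X ω j n : ℝ) - 1) / 2

/-- (US, assume `hB : StWB`, `hP : StWP`.) The upper step. PROOF. `B = B₁ + B₂ + 1`. Given `η` choose `η'`, `ε` small (`Reg ε` implies `Reg ε'` for `ε ≤ ε'`; `j ≤ Nm`), take
`l = l₁ - bm l₂ + pr2` (box `j`). Level: `(N - (j + 1)) ω + (j + 1) ω = N ω`, `2 (j + 1) ω ≤ N ω`; the weights `l₁` for the boxes below `j` are weights for the boxes below `j + 1`. With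
`e = ej X ω j n`, `I = ind j0 j n`: `ind j0 (j + 1) n = I 1[e = 0]`, and the divisor sum is at least `I - e I + e (e - 1) / 2 ≥ I 1[e = 0]`
(`(e - 1)(e - 2) ≥ 0`, `0 ≤ I ≤ 1`). Main term at most `μ + η' - G_j (μ' - η') + G_j ^ 2 / 2`, `|G_j - gm j| ≤ ε`, `G_j ≥ 0`. -/
def StUS : Prop := ∀ (ω : ℝ) (j0 Nm N j : ℕ) (μ μ' : ℝ), 0 < ω → 1 ≤ j0 → j0 ≤ j → 3 * (j + 1) ≤ N →
  N ≤ Nm → (N : ℝ) * ω ≤ 2 → UpP ω j0 Nm N j μ → LoP ω j0 Nm (N - (j + 1)) j μ' →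
    UpP ω j0 Nm N (j + 1) (μ - gm j * μ' + gm j ^ 2 / 2)

/-- (LS, assume `hB : StWB`.) The lower step. PROOF. `l = l₁ - bm l₂`; the divisor sum is at most `I - e I ≤ I 1[e = 0]`; main term at least
`μ - η' - G_j (μ' + η')`. -/
def StLS : Prop := ∀ (ω : ℝ) (j0 Nm N j : ℕ) (μ μ' : ℝ), 0 < ω → 1 ≤ j0 → j0 ≤ j → 2 * (j + 1) ≤ N →
  N ≤ Nm → (N : ℝ) * ω ≤ 2 → LoP ω j0 Nm N j μ → UpP ω j0 Nm (N - (j + 1)) j μ' →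
    LoP ω j0 Nm N (j + 1) (μ - gm j * μ')

/-- (TV, no hypotheses.) PROOF. Delta function at `1`: `Pr X ω j0 j0 = ∅`, divisor sum `1`, main term `1`. Keeping the weights: `ind j0 (j + 1) n ≤ ind j0 j n`. Zero weights. -/
def StTV : Prop := ∀ (ω : ℝ) (j0 Nm N j : ℕ) (μ : ℝ), 0 < ω → j0 ≤ j →
  UpP ω j0 Nm N j0 1 ∧ LoP ω j0 Nm N j0 1 ∧ (UpP ω j0 Nm N j μ → UpP ω j0 Nm N (j + 1) μ) ∧
    LoP ω j0 Nm N j 0

/-- (AX, assume `hU : StUS`, `hL : StLS`, `hT : StTV`.) PROOF. Immediate; `N ω ≤ Nm ω ≤ 2`. -/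
def StAX : Prop := ∀ (ω : ℝ) (j0 Nm : ℕ), 0 < ω → 1 ≤ j0 → (Nm : ℝ) * ω ≤ 2 →
  Ax j0 Nm (fun N j μ => UpP ω j0 Nm N j μ) (fun N j μ => LoP ω j0 Nm N j μ)

/-- (NN, no hypotheses.) Positivity. PROOF. Let `P` be the finite set of all primes of `Pr X ω j0 j`, and choose a random subset `S` of `P`, `p ∈ S` with probability `g p`, independently:
for `q` with `Sp X ω j0 j q` the probability of `q ∣ ∏ S` is `GG g q`, that is `∑_{S ⊆ P} (∏_{p ∈ S} g p) (∏_{p ∈ P \ S} (1 - g p)) 1[q ∣ ∏ S] = GG g q`. So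
`ms X g l = ∑_S (∏_S g) (∏_{P \ S} (1 - g)) ∑_{q ∣ ∏ S} l q ≥ 0` (`l` is supported on such `q ≤ X ^ x ≤ X ^ 2`). -/
def StNN : Prop := ∀ (X ω x B : ℝ) (j0 j : ℕ) (g l : ℕ → ℝ), 2 ≤ X → x ≤ 2 → Wt X ω j0 j x B l →
  (∀ n : ℕ, 1 ≤ n → 0 ≤ ∑ q ∈ n.divisors, l q) → (∀ p, 0 ≤ g p ∧ g p ≤ 1) → 0 ≤ ms X g l

/-- (D6, no hypotheses.) PROOF. `gm j ≤ 1 / j`. With `t = j / (4 (K + 1) u)`, `α = K / (K + 1)`: for `u → ∞` the sum (with `1 / j` for `gm j`) is a Riemann sum of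
`∫_{α/4}^{α - 1/(K+1)} (1/t)(1 - t)(3 α / 4) / (α - t) dt`, and
`(1 - t) / (t (α - t)) = (1 / α)(1 / t) + (1 / α)(1 - α) / (α - t)`, so the integral is `(3/4) (log (4 (α - 1/(K+1)) / α) + (1 - α) log ((3 α / 4)(K + 1)))`, at most
`(3/4) (log 4 + log (K + 1) / (K + 1))`, which tends to `(3/4) log 4 = 1.03972`. In detail: `1 / (4 K u - (j + 1)) ≤ (1 + 1/u) / (4 K u - j)` as `4 K u - j > 4 u`;
`∑_{a ≤ j < b} 1 / j ≤ log ((b - 1) / (a - 1))`, `∑_{a ≤ j < b} 1 / (M - j) ≤ log ((M - a) / (M - b))`. -/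
def StD6 : Prop := ∃ K₀ : ℕ, ∀ K : ℕ, K₀ ≤ K → ∃ u₀ : ℕ, ∀ u : ℕ, u₀ ≤ u →
  ∑ j ∈ Ico (K * u) (4 * K * u - 4 * u), gm j * (1 - (j : ℝ) / (4 * (K + 1) * u)) *
    (3 * (K * u) / (4 * K * u - ((j : ℝ) + 1))) ≤ 105 / 100

/-- (FS, assume `hA : StAX`, `h4 : Pool.Agent.Helper9.TW.StD4`, `h5 : Pool.Agent.Helper9.TW.StD5`, `h6 : StD6`.) PROOF. Compare the module FS of TW (`Helper49/TW`). Let `K ≥ K₀` (D6; `K₀ ≥ 5`),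
`θ' = min θ (1 / (4 (K + 1)))`, `S = ⌈1.5 / θ'⌉₊`, `u` large, `j0 = ⌊4 (K + 1) u θ'⌋ ≤ u`, `ω = 1 / (4 (K + 1) u)`, `Nm = S j0`: `Nm ω ≤ (1.5 / θ' + 1) θ' ≤ 2` and
`Nm ≥ 6 (K + 1) u - 1.5 / θ' ≥ 4 (K + 1) u`. `LoP` at `(4 K u, K u)` (GLo at `s = 4`): `μm ≥ (j0 / (K u))(0.9691 - η)`; `UpP`: `μp ≤ (j0 / (K u))(1.0304 + η)`; for
`K u ≤ j < 4 K u - 4 u` and `N' = 4 K u - (j + 1) ∈ [4 u, 3 K u]` D4 (2) for `(N', K u)` (`3 j0 ≤ 3 u ≤ N'`, `N' ≤ 3 K u`): `μ_j N' ≤ 3 j0 (1.2293 + η)`. So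
`∑ gm j (1 - j ω) μ_j ≤ (j0 / (K u)) (1.2293 + η) · 1.05` by D6, and `0.9691 - 0.002 · 1.0304 - 0.7007 · 1.2293 · 1.05 > 0.062`; `η = 1 / 1000`. -/
def StFS : Prop := ∃ K₀ : ℕ, ∀ K : ℕ, K₀ ≤ K → ∀ θ : ℝ, 0 < θ → ∃ u j0 Nm : ℕ, 1 ≤ u ∧ 1 ≤ j0 ∧ j0 ≤ u ∧
  (j0 : ℝ) * (1 / (4 * (K + 1) * u)) ≤ θ ∧ 4 * (K + 1) * u ≤ Nm ∧
  (Nm : ℝ) * (1 / (4 * (K + 1) * u)) ≤ 2 ∧ ∃ (μm μp : ℝ) (μ : ℕ → ℝ),
    LoP (1 / (4 * (K + 1) * u)) j0 Nm (4 * K * u) (K * u) μm ∧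
    UpP (1 / (4 * (K + 1) * u)) j0 Nm (4 * K * u) (K * u) μp ∧
    (∀ j ∈ Ico (K * u) (4 * K * u - 4 * u),
      UpP (1 / (4 * (K + 1) * u)) j0 Nm (4 * K * u - (j + 1)) (K * u) (μ j)) ∧
    1 / 50 * ((j0 : ℝ) / (K * u)) ≤ μm - 2 / 1000 * μp - 1001 / 1000 * (7 / 10) *
      ∑ j ∈ Ico (K * u) (4 * K * u - 4 * u), gm j * (1 - (j : ℝ) / (4 * (K + 1) * u)) * μ j

end Pool.Agent.Helper9.UP
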