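import Pool.Agent.Helper9.UP.DefsS
import Pool.Agent.Helper9.UP.StN
import Pool.Agent.Helper9.UP.StS
import Pool.Agent.Helper9.UP.StW

/-!
# Project UP (MP_d466de), part C: combination

Notation in the proofs: `d = f.natDegree`, `1 ≤ d ≤ Λ`, `lN = log N`, `t_p = log p / lN`, `V(w) = VV f w`, `g = gf f`, `PM = PM f ≤ 4 ^ (2 d)` (`primorial_le_4_pow`). `E = Λ ^ 2` bounds
`∑_{p ≤ Y} g p` for `log Y ≤ exp (Λ / 8)` (EX). Always `0 ≤ g p < 1/2` (`rho f p ≤ d` by RO, `g p = 0` for `p ≤ 2 d`), and `rho f p = p g p` for `p > 2 d`. For `m > N ≥ exp Λ + 2` the value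
`f(m)` is positive, so `q ∣ val f m` iff `(q : ℤ) ∣ f.eval m`.
-/

set_option autoImplicit false

noncomputable section

namespace Pool.Agent.Helper9.UP

open Finset Polynomial
open Pool.Agent.Helper9.TW (gm)

/-- (C0, no hypotheses.) PROOF. For every prime `p ≤ 2 d` NFD with `n = p` gives `k_p` with `p ∤ f(k_p)`; Chinese remainder theorem. -/
def StC0 : Prop := ∀ f : ℤ[X], NFD f → 1 ≤ f.natDegree → ∃ m0 : ℕ, m0 < PM f ∧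
  ∀ m : ℕ, m % PM f = m0 → ∀ p : ℕ, p.Prime → p ≤ 2 * f.natDegree → ¬ (p : ℤ) ∣ f.eval (m : ℤ)

/-- (CN, no hypotheses.) Counting. PROOF. The condition depends on `m` modulo `PM q`, `gcd(PM, q) = 1`, and by the Chinese remainder theorem exactly `R = ∏_{p ∣ q} rho f p` classes
modulo `PM q` satisfy it; each class contains `N / (PM q) + O(1)` integers of `(N, 2 N]` (error at most `1`); `R / q = GG g q`. -/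
def StCN : Prop := ∀ (f : ℤ[X]) (m0 N q : ℕ), m0 < PM f → Squarefree q →
  (∀ p : ℕ, p.Prime → p ∣ q → 2 * f.natDegree < p) →
  |(((AA f m0 N).filter (fun m : ℕ => (q : ℤ) ∣ f.eval (m : ℤ))).card : ℝ) -
    (N : ℝ) / PM f * GG (gf f) q| ≤ ∏ p ∈ q.primeFactors, (rho f p : ℝ)

/-- (PO, no hypotheses.) Size of the values. PROOF. `f(m) ≥ m ^ d - e ^ Λ (m ^ d - 1) / (m - 1) = m ^ d (1 - r) + r` with `r = e ^ Λ / (m - 1) ≤ (m - 2) / (m - 1) < 1`, so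
`f(m) ≥ m ^ d / (m - 1) + ... > 1` (leading coefficient at least `1`). Upper bound: trivial. -/
def StPO : Prop := ∀ (Λ : ℝ) (f : ℤ[X]), Adm Λ f → 0 < f.leadingCoeff → ∀ m : ℕ,
  Real.exp Λ + 2 ≤ (m : ℝ) → 1 < f.eval (m : ℤ) ∧ ((val f m : ℕ) : ℤ) = f.eval (m : ℤ) ∧
    ((val f m : ℕ) : ℝ) ≤ ((f.natDegree : ℝ) + 1) * Real.exp Λ * (m : ℝ) ^ f.natDegree

/-- (CB, assume `hN : StCN`, `hP : StPO`.) The main sum. PROOF. `l 0 = 0`, and `l q ≠ 0` implies: `q` squarefree, primes `≥ N ^ (j0 ω) > max w (2 d)`, `q ≤ N ^ x ≤ N ^ 2`. So the sum is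
`∑_{T ∈ F} ∑_q (-1) ^ |T| l q #{m ∈ AA : (∏ T) q ∣ f(m)}`, `∏ T` and `q` are coprime; apply CN to `(∏ T) q`. Main term: `GG g ((∏ T) q) = (∏_{T} g) GG g q`. Error at most
`B (∑_{T ∈ F} ∏_T rho f p) (∑_q ∏_{p ∣ q} rho f p)`. As `rho f p = p g p`: `∏_T rho = (∏ T) ∏_T g ≤ exp lam · ∏_T g` and `∑_T ∏_T g ≤ ∏_{p ∈ Qf f w} (1 + g p) ≤ exp E`; in the
same way `∏_{p ∣ q} rho = q GG g q ≤ N ^ x GG g q` and `∑_q GG g q ≤ ∏_{p ≤ N ^ x} (1 + g p) ≤ exp E`. -/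
def StCB : Prop := ∀ (Λ ω x B lam E : ℝ) (f : ℤ[X]) (m0 N w Y j0 j : ℕ) (F : Finset (Finset ℕ))
  (l : ℕ → ℝ), Adm Λ f → 0 < f.leadingCoeff → m0 < PM f → Real.exp Λ + 2 ≤ (N : ℝ) →
  (∀ T ∈ F, T ⊆ Qf f w ∧ ∑ p ∈ T, Real.log p ≤ lam) → (w : ℝ) < (N : ℝ) ^ ((j0 : ℝ) * ω) →
  2 * (f.natDegree : ℝ) < (N : ℝ) ^ ((j0 : ℝ) * ω) → 0 < ω → 0 ≤ x → x ≤ 2 → w ≤ Y →
  (N : ℝ) ^ x ≤ (Y : ℝ) → ∑ p ∈ (range (Y + 1)).filter Nat.Prime, gf f p ≤ E →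
  Wt N ω j0 j x B l → 0 ≤ B →
  |∑ m ∈ AA f m0 N, tw F (val f m) * ∑ q ∈ (val f m).divisors, l q -
    (N : ℝ) / PM f * MW F (gf f) * ms N (gf f) l| ≤
    B * Real.exp lam * (N : ℝ) ^ x * Real.exp (2 * E)

/-- (CU, assume `hN : StCN`, `hP : StPO`, `hRO : StRO`.) PROOF. (1) `∑_{m ∈ AA} tw F (val f m) = ∑_T (-1) ^ |T| #{m : ∏ T ∣ f(m)}`, CN, error `∑_T ∏_T rho ≤ exp lam ∏ (1 + g) ≤ exp (lam + E)` as in CB.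
(2) The number is at most `∑_{m ∈ AA, p ∣ f(m)} tw F (val f m)` (`tw F n = MW F (fun p => 1[p ∣ n])`, and the product over `Qf f w` of `1 - 1[p' ∣ n]` is the indicator function), that is
`∑_T (-1) ^ |T| #{m : p ∏ T ∣ f(m)}`; CN for `p ∏ T`, error at most `rho f p exp (lam + E)`, `rho f p ≤ d`. -/
def StCU : Prop := ∀ (Λ lam E : ℝ) (f : ℤ[X]) (m0 N w : ℕ) (F : Finset (Finset ℕ)),
  Adm Λ f → 0 < f.leadingCoeff → m0 < PM f → Real.exp Λ + 2 ≤ (N : ℝ) →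
  (∀ T ∈ F, T ⊆ Qf f w ∧ ∑ p ∈ T, Real.log p ≤ lam) →
  ∑ p ∈ (range (w + 1)).filter Nat.Prime, gf f p ≤ E →
  |∑ m ∈ AA f m0 N, tw F (val f m) - (N : ℝ) / PM f * MW F (gf f)| ≤ Real.exp (lam + E) ∧
  ((∀ h : ℕ → ℝ, (∀ p, 0 ≤ h p ∧ h p ≤ 1) → ∏ p ∈ Qf f w, (1 - h p) ≤ MW F h) →
    ∀ p : ℕ, p.Prime → w < p → 2 * f.natDegree < p →
    (((AA f m0 N).filter (fun m : ℕ => p ∣ val f m ∧ ∀ p' ∈ Qf f w, ¬ p' ∣ val f m)).card : ℝ) ≤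
      (N : ℝ) / PM f * gf f p * MW F (gf f) + (f.natDegree : ℝ) * Real.exp (lam + E))

/-- (BR, no hypotheses.) Roots modulo `p ^ 2`. PROOF. `Δ = |Res(f, f')|` (Mathlib: `Polynomial.resultant`), not zero because `f` is irreducible over `ℚ`, hence prime to `f'` (`resultant_map_map`,
`resultant_eq_zero_iff`). It is the determinant of a matrix of size `2 d - 1` with entries at most `d e ^ Λ`, so `log Δ ≤ 2 d (log (2 d) + log d + Λ) ≤ 6 Λ ^ 2` (`(2d-1)!` terms). `Δ = ± (a f + b f')` with `a`, `b` in `ℤ[X]`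
(`exists_mul_add_mul_eq_C_resultant`). If `p ∤ Δ` and `p ∣ f(r)` then `p ∤ f'(r)`. The reduction modulo `p` maps the roots in `[0, p ^ 2)` modulo `p ^ 2` to roots modulo `p`, and it is injective:
`f(r + p t) ≡ f(r) + p t f'(r) (mod p ^ 2)` determines `t` modulo `p`. -/
def StBR : Prop := ∃ C Λ₀ : ℝ, 0 < C ∧ ∀ Λ : ℝ, Λ₀ ≤ Λ → ∀ f : ℤ[X], Adm Λ f →
  ∃ Δ : ℕ, 1 ≤ Δ ∧ Real.log Δ ≤ C * Λ ^ 3 ∧ ∀ p : ℕ, p.Prime → ¬ p ∣ Δ → rho f (p ^ 2) ≤ rho f p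

/-- (SQ, assume `hB : StBR`, `hRO : StRO`.) PROOF. A prime `p > z ≥ Δ` does not divide `Δ`, so `rho f (p ^ 2) ≤ d` and there are at most `d (N / p ^ 2 + 1)` such `m` for `p`; `∑_{n > z} n ^ (-2) ≤ 1 / z`. -/
def StSQ : Prop := ∃ C Λ₀ : ℝ, 1 ≤ C ∧ ∀ Λ : ℝ, Λ₀ ≤ Λ → ∀ f : ℤ[X], Adm Λ f → ∀ N z y : ℕ,
  C * Λ ^ 3 ≤ Real.log z → z ≤ y →
  (Nat.card {m : ℕ // N < m ∧ m ≤ 2 * N ∧ ∃ p : ℕ, p.Prime ∧ z < p ∧ p ≤ y ∧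
    ((p ^ 2 : ℕ) : ℤ) ∣ f.eval (m : ℤ)} : ℝ) ≤ (f.natDegree : ℝ) * N / z + f.natDegree * y

/-- (PT, assume `hP : StPO`.) Richert's weights at one value. PROOF. `n = val f m ≤ (d + 1) e ^ Λ (2 N) ^ d`, so `log n ≤ d lN + 3 Λ ≤ (d + 0.01) lN` (`log (d + 1) ≤ Λ`). Suppose `Ω(n) ≥ d + 2`. With multiplicity
`∑_{p ∣ n} (1 - t_p) = Ω(n) - log n / lN ≥ 1.99`. The number `b` of prime factors `> N ^ v`, `v = 2 d / (2 d + 1)`, with multiplicity satisfies `b v ≤ d + 0.01`, so `b < d + 1`, `b ≤ d`, and each of them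
contributes at most `1 - v = 1 / (2 d + 1)`: together less than `1/2`. The prime factors `≤ N ^ v` are simple; so their sum is at least `1.49`, and `0.7 · 1.49 > 1`. -/
def StPT : Prop := ∀ (Λ : ℝ) (f : ℤ[X]) (N m : ℕ), Adm Λ f → 0 < f.leadingCoeff →
  Real.exp Λ + 2 ≤ (N : ℝ) → 300 * Λ ≤ Real.log N → N < m → m ≤ 2 * N →
  (∀ p : ℕ, p.Prime → (p : ℝ) ≤ (N : ℝ) ^ vd f → ¬ p ^ 2 ∣ val f m) →
  7 / 10 * ∑ p ∈ (val f m).primeFactors.filter (fun p : ℕ => (p : ℝ) ≤ (N : ℝ) ^ vd f),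
    (1 - Real.log p / Real.log N) < 1 →
  1 < val f m ∧ ArithmeticFunction.cardFactors (val f m) ≤ f.natDegree + 1

/-- (VA, no hypotheses.) The sieve product over regular boxes. PROOF. `V(w'') / V(w) = ∏_{w < p ≤ w''} (1 - g p) ≤ exp (- ∑_{w < p ≤ w''} g p)`. Let `J = ⌊log w'' / (ω lN)⌋`. If `J ≤ j0` then
`log w'' < (j0 + 1) ω lN ≤ 2 j0 ω lN`, and `V(w'') ≤ V(w)` is enough. If `J > j0` the primes of the boxes `j0 ≤ i < J` are in `(w, w'']`, so the sum is at least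
`∑_{j0 ≤ i < J} (gm i - ε) ≥ log (J / j0) - 1` (`(J - j0) ε ≤ ε / ω ≤ 1`), and `log w'' < (J + 1) ω lN ≤ 2 J ω lN`: `V(w'') / V(w) ≤ e j0 / J ≤ 2 e j0 ω lN / log w''`. -/
def StVA : Prop := ∀ (ω ε : ℝ) (j0 Nm N w w'' : ℕ) (f : ℤ[X]), 0 < ω → 1 ≤ j0 → 0 ≤ ε → ε ≤ ω →
  1 ≤ (Nm : ℝ) * ω → Reg ε N ω j0 Nm (gf f) → w = ⌈(N : ℝ) ^ ((j0 : ℝ) * ω)⌉₊ - 1 → w < w'' →
  w'' ≤ N → 2 ≤ w'' →
    VV f w'' ≤ Real.exp 4 * ((j0 : ℝ) * ω * Real.log N / Real.log w'') * VV f w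

/-- (NA, assume `hVA : StVA`, `hVR : StVR`, `hCU : StCU`, `hEX : StEX`.) The large primes, case A. PROOF. `θ = j0 ω ≤ 1/8`, `w = ⌈N ^ θ⌉ - 1`. Let `p ∈ Nr f N ((K - 1) / (K + 1))`, `t = t_p`, and
`w'' = ⌊(N / p) ^ (1 / (4 Bs))⌋`. As `p ≤ N ^ vd`: `log (N / p) = (1 - t) lN ≥ lN / (2 d + 1) ≥ C₁ Λ ^ 4 / 3`; so `log w'' ≥ (1 - t) lN / (8 Bs)` is large compared with `Λ ^ 3`. `N / p ≤ N ^ (2 / (K + 1))`, so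
`w'' ≤ N ^ (1 / (2 (K + 1))) < N ^ (K u ω)`, `K u ω = K / (4 (K + 1))`: the primes in `(w, w'']` are in the boxes `j0 ≤ i < K u`, and the `m` counted have no prime factor in `Qf f w''`; `w'' < p`, `2 d < p`. FLh for
`w''` and CU: the number is at most `(N / PM) g p · 1.001 V(w'') + d exp (Bs (log w'' + Λ ^ 4) + Λ ^ 2)`, and `Bs log w'' ≤ log (N / p) / 4`. By VA (if `w < w''`) or VR (if `w'' ≤ w`;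
`log w ≤ θ lN`) `V(w'') ≤ e ^ 4 (θ lN / log w'') V(w) ≤ e ^ 4 (8 Bs θ / (1 - t)) V(w)`. Multiply by `1 - t` and sum over `p`: `1.001 · 8 e ^ 4 Bs θ (N / PM) V(w) ∑ g p`, `8.008 e ^ 4 < 438`, and by regularity (boxes `4 (K - 1) u ≤ i < 4 (K + 1) u`)
`∑ g p ≤ log ((K + 1) / (K - 1)) + 8 u ε ≤ 2 / (K - 1) + 1/(2 K) ≤ 3 / K` (`K ≥ 5`, `ε ≤ ω / 8`). The error terms: `d exp (Bs Λ ^ 4 + Λ ^ 2) ∑_{p ≤ N ^ vd} (N / p) ^ (1/4) ≤ d exp (Bs Λ ^ 4 + Λ ^ 2) (4/3) N ^ (1 - (3/4)(1 - vd))`,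
`(3/4)(1 - vd) = (3/4) / (2 d + 1) ≥ 1 / (4 Λ)`, and `(4/3) Λ exp (Λ ^ 2) ≤ exp (Bs Λ ^ 4)`. -/
def StNA : Prop := ∀ (Bs ω ε : ℝ) (K u j0 Nm : ℕ), 1 ≤ Bs → 5 ≤ K → 1 ≤ u → 1 ≤ j0 →
  ω = 1 / (4 * (K + 1) * u) → (j0 : ℝ) * ω ≤ 1 / 8 → 0 ≤ ε → ε ≤ ω / 8 → 4 * (K + 1) * u ≤ Nm →
  ∃ C₁ Λ₀ : ℝ, ∀ Λ : ℝ, Λ₀ ≤ Λ → ∀ f : ℤ[X], Adm Λ f → 0 < f.leadingCoeff → FLh Bs Λ f →
  ∀ m0 N w : ℕ, m0 < PM f → C₁ * Λ ^ 5 ≤ Real.log N → Real.log N ≤ Real.exp (Λ / 16) →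
  Reg ε N ω j0 Nm (gf f) → w = ⌈(N : ℝ) ^ ((j0 : ℝ) * ω)⌉₊ - 1 →
  ∑ p ∈ Nr f N (((K : ℝ) - 1) / (K + 1)), (1 - Real.log p / Real.log N) *
    (((AA f m0 N).filter (fun m : ℕ => p ∣ val f m ∧ (∀ p' ∈ Qf f w, ¬ p' ∣ val f m) ∧
      ind N ω j0 (K * u) (val f m) = 1)).card : ℝ) ≤
    1500 * Bs / K * ((j0 : ℝ) * ω) * ((N : ℝ) / PM f) * VV f w +
      N * Real.exp (2 * Bs * Λ ^ 4 - Real.log N / (4 * Λ))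

/-- (NB, assume `hVR : StVR`, `hCU : StCU`, `hEX : StEX`.) The large primes, case B. PROOF. As NA, `θ = 1 / (8 Bs)`, `w = ⌊N ^ θ⌋`, but `w_p = min w ⌊(N / p) ^ (1 / (4 Bs))⌋` for a prime `p` of the sum. The `m` counted have no prime factor in `Qf f w_p`;
`Bs log w_p ≤ log (N / p) / 4`. If `w_p < w` then by VR `V(w_p) ≤ e ^ 4 (log w / log w_p) V(w)` with `log w ≤ lN / (8 Bs)`, `log w_p ≥ (1 - t) lN / (8 Bs)`; so in both cases `(1 - t) V(w_p) ≤ e ^ 4 V(w)`, and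
`1.001 e ^ 4 < 55`. Errors as in NA. (`w_p < p`: `w ≤ N ^ θ < p`; `2 d < p`.) -/
def StNB : Prop := ∀ Bs : ℝ, 1 ≤ Bs → ∃ C₁ Λ₀ : ℝ, ∀ Λ : ℝ, Λ₀ ≤ Λ → ∀ f : ℤ[X], Adm Λ f →
  0 < f.leadingCoeff → FLh Bs Λ f → ∀ m0 N w : ℕ, m0 < PM f → C₁ * Λ ^ 5 ≤ Real.log N →
  Real.log N ≤ Real.exp (Λ / 16) → w = ⌊(N : ℝ) ^ (1 / (8 * Bs))⌋₊ →
  ∑ p ∈ (Nr f N (1 / (8 * Bs))).filter (fun p : ℕ => (N : ℝ) ^ (1 / (8 * Bs)) < (p : ℝ)),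
    (1 - Real.log p / Real.log N) *
    (((AA f m0 N).filter (fun m : ℕ => p ∣ val f m ∧ ∀ p' ∈ Qf f w, ¬ p' ∣ val f m)).card : ℝ) ≤
    55 * (∑ p ∈ (range (N + 1)).filter (fun p : ℕ => p.Prime ∧ (N : ℝ) ^ (1 / (8 * Bs)) < (p : ℝ)),
      gf f p) * ((N : ℝ) / PM f) * VV f w + N * Real.exp (2 * Bs * Λ ^ 4 - Real.log N / (4 * Λ))

open Classical in
/-- (CM, assume `hC9 : Pool.Agent.Helper9.TW.StC9`, `hCB : StCB`, `hWB : StWB`, `hNN : StNN`.) The main sum, case A. PROOF. Compare module C10 of TW. Let `c j = (7/10)(1 - j ω)`, `J` the set of the `j`, `κ = j0 / (K u)`. The expression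
`P(η, ε) = (μm - η) - 0.002 (μp + η) - 1.001 ∑_J c j (gm j + ε)(μ j + η)` tends to the left side of the hypothesis for `η, ε → 0`; fix `η` and then `ε` (also below the `ε`s of the weights, `Reg` is monotone in `ε`) such that
`P(η, ε') ≥ κ / 100` for `ε' ≤ ε`. Let `Reg ε`, and `l⁻`, `l⁺`, `l_j` the weights, bounds `B₁, B₂, B_j`. For `m ∈ AA`, `n = val f m ≥ 1`, use C9 with `I₀` = indicator of `∀ p ∈ Qf f w, ¬ p ∣ n`, `A = ind N ω j0 (K u) n`, `t₀ = tw F0 n`, `t₁ = tw F1 n`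
(`FLp.lo`, `up` with `h p = 1[p ∣ n]`), `Am`, `Ap` the divisor sums of `l⁻`, `l⁺`, `e j = ej N ω j n`, `Aj j = e j ∑_{q ∣ n} l_j q = ∑_{q ∣ n} bm l_j q`. Sum over `AA` and apply CB to all sums; all weights have level `x = 4 K u ω = K / (K + 1)`
(`bm l_j`: WB, `(4 K u - (j + 1)) ω + (j + 1) ω`), in CB `Y = N ^ 2`. With `V = VV f w`, `V ≤ MW F0 g ≤ 1.001 V`, `0.999 V ≤ MW F1 g ≤ V`, `m^± = ms l^± `, `m_j = ms l_j`, `G_j = ∑_{bx j} g` the main term is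
`(N / PM)(MW F0 · m⁻ + (MW F1 - MW F0) m⁺ - ∑ c_j MW F0 · G_j m_j)`; `m⁺, m_j ≥ 0` (NN), `m⁻ ≥ μm - η > 0`, `m⁺ ≤ μp + η`, `m_j ≤ μ_j + η`, `G_j ≤ gm j + ε`: it is at least `(N / PM) V P(η, ε)`. Errors: `B = B₁ + 2 B₂ + ∑ B_j`. -/
def StCM : Prop := ∀ (K u j0 Nm : ℕ) (ω μm μp : ℝ) (μ : ℕ → ℝ), 2 ≤ K → 1 ≤ u → 1 ≤ j0 → j0 ≤ K * u →
  ω = 1 / (4 * (K + 1) * u) → 4 * (K + 1) * u ≤ Nm →
  LoP ω j0 Nm (4 * K * u) (K * u) μm → UpP ω j0 Nm (4 * K * u) (K * u) μp →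
  (∀ j ∈ Ico (K * u) (4 * K * u - 4 * u), UpP ω j0 Nm (4 * K * u - (j + 1)) (K * u) (μ j)) →
  1 / 50 * ((j0 : ℝ) / (K * u)) ≤ μm - 2 / 1000 * μp - 1001 / 1000 * (7 / 10) *
    ∑ j ∈ Ico (K * u) (4 * K * u - 4 * u), gm j * (1 - (j : ℝ) * ω) * μ j →
  ∃ ε B : ℝ, 0 < ε ∧ 0 ≤ B ∧ ∀ (Λ lam E : ℝ) (f : ℤ[X]) (m0 N w : ℕ) (F0 F1 : Finset (Finset ℕ)),
    Adm Λ f → 0 < f.leadingCoeff → m0 < PM f → Real.exp Λ + 2 ≤ (N : ℝ) →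
    w = ⌈(N : ℝ) ^ ((j0 : ℝ) * ω)⌉₊ - 1 → 2 * (f.natDegree : ℝ) < (N : ℝ) ^ ((j0 : ℝ) * ω) →
    FLp f w lam (1 / 1000) F0 F1 →
    ∑ p ∈ (range (N ^ 2 + 1)).filter Nat.Prime, gf f p ≤ E → Reg ε N ω j0 Nm (gf f) →
    1 / 100 * ((j0 : ℝ) / (K * u)) * ((N : ℝ) / PM f) * VV f w -
      B * Real.exp lam * (N : ℝ) ^ ((K : ℝ) / (K + 1)) * Real.exp (2 * E) ≤
    ∑ m ∈ AA f m0 N, (if ∀ p ∈ Qf f w, ¬ p ∣ val f m then (1 : ℝ) else 0) *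
      ind N ω j0 (K * u) (val f m) *
      (1 - ∑ j ∈ Ico (K * u) (4 * K * u - 4 * u), 7 / 10 * (1 - (j : ℝ) * ω) *
        (ej N ω j (val f m) : ℝ))

/-- (FA, assume `hFL : StFL`, `hFS : StFS`, `hCM : StCM`, `hNA : StNA`, `hC0 : StC0`, `hPT : StPT`, `hSQ : StSQ`, `hPO : StPO`, `hEX : StEX`.) Case A. PROOF. FL with accuracy `1 / 1000` gives `Bs`. Let `K` be at least `50000 Bs`, `10` and the `K₀` of FS; FS with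
`θ_A = 1 / (8 (K + 1) Bs)` gives `u`, `j0`, `Nm` and the `μ`'s, `ω = 1 / (4 (K + 1) u)`, `θ = j0 ω ≤ θ_A`; CM gives `ε'`, `B`; `ε = min ε' (ω / 8)`; NA gives `C₁`. Let `w = ⌈N ^ θ⌉ - 1`, `lam = Bs (log w + Λ ^ 4) ≤ lN / (8 (K + 1)) + Bs Λ ^ 4`,
`E = Λ ^ 2` (`log (N ^ 2) ≤ exp (Λ / 8)`). For `m ∈ AA f m0 N` (`m0` from C0), `n = val f m`, let `S(m) = 1[no p ∈ Qf f w divides n] · ind n` and
`h(m) = 1 - ∑_j (7/10)(1 - j ω) e_j(n) - (7/10) ∑_{p ∈ Nr, p ∣ n} (1 - t_p)`. CM and NA: `∑ S(m) h(m) ≥ (N / PM) V(w) (4 (K + 1) θ / (100 K) - (7/10) · 1500 Bs θ / K) - errors ≥ (θ / 100)(N / PM) V(w) - errors`. Errors: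
`B exp (lam + 2 Λ ^ 2) N ^ (K / (K + 1)) ≤ B exp (Bs Λ ^ 4 + 2 Λ ^ 2) N ^ (1 - 7 / (8 (K + 1)))`. So `κ = θ / 100`, `δ = 7 / (8 (K + 1))`. If `S(m) > 0`, `h(m) > 0` and `p ^ 2 ∤ f(m)` for all primes `w < p ≤ N ^ vd`, then `m ∈ Gd f N (1/5)`: `n` has no prime
factor `≤ 2 d` (C0), none in `Qf f w`, none in the boxes `j0 ≤ i < K u`, that is none below `N ^ (K u ω) = N ^ (K / (4 (K + 1)))`, which is `> N ^ (1/5)`; the primes `N ^ (K u ω) ≤ p < N ^ ((K - 1) / (K + 1))` dividing `n` are in a box `j` of the sum, `1 - t_p ≤ 1 - j ω`, and the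
primes in `[N ^ ((K - 1) / (K + 1)), N ^ vd]` are in `Nr`; so `(7/10) ∑_{p ∣ n, p ≤ N ^ vd} (1 - t_p) ≤ 1 - h(m) < 1` and PT applies. The exceptional `m` are counted by SQ (`z = w`, `y = ⌊N ^ vd⌋`). As `S(m) h(m) ≤ 1`, `#Gd ≥ ∑ S h - #exceptions`. -/
def StFA : Prop := ∃ (κ δ ω ε c B Bs C₁ Λ₀ : ℝ) (j0 Nm : ℕ), 0 < κ ∧ 0 < δ ∧ 0 < ω ∧ 0 < ε ∧ 0 < c ∧
  0 ≤ B ∧ 1 ≤ Bs ∧ 1 ≤ j0 ∧ (j0 : ℝ) * ω ≤ 1 / 2 ∧ ∀ Λ : ℝ, Λ₀ ≤ Λ → ∀ f : ℤ[X], Adm Λ f →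
  0 < f.leadingCoeff → NFD f → ∀ N : ℕ, C₁ * Λ ^ 5 ≤ Real.log N → Real.log N ≤ Real.exp (Λ / 16) →
  Reg ε N ω j0 Nm (gf f) →
  Er f Λ κ δ B Bs N (⌈(N : ℝ) ^ ((j0 : ℝ) * ω)⌉₊ - 1) ≤ ((Gd f N c).card : ℝ)

/-- (FB, assume `hFL : StFL`, `hCU : StCU`, `hNB : StNB`, `hC0 : StC0`, `hPT : StPT`, `hSQ : StSQ`, `hPO : StPO`, `hEX : StEX`.) Case B. PROOF. FL with accuracy `1 / 1000` gives `Bs`, `θ = c = 1 / (8 Bs)`, `w = ⌊N ^ θ⌋`, `lam = Bs (log w + Λ ^ 4) ≤ lN / 8 + Bs Λ ^ 4`. For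
`m ∈ AA f m0 N`, `n = val f m`: `I(m) = 1[no p ∈ Qf f w divides n]`, `h(m) = 1 - (7/10) ∑_{p ∣ n, N ^ θ < p ≤ N ^ vd} (1 - t_p)`. By `FLp.lo` `∑ I(m) ≥ ∑ tw F1 n`, CU (1) and NB: `∑ I(m) h(m) ≥ (N / PM) V(w) (0.999 - (7/10) · 55 / 200) - errors`,
errors `exp (lam + Λ ^ 2) ≤ exp (Bs Λ ^ 4 + 2 Λ ^ 2) N ^ (1/8)`, so `κ = 4/5`, `δ = 7/8`, `B = 1`. If `I(m) = 1`, `h(m) > 0` and `p ^ 2 ∤ f(m)` for all primes `w < p ≤ N ^ vd` then `m ∈ Gd f N θ`: all prime factors are `> 2 d` (C0) and not in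
`Qf f w`, so `> w`, so `> N ^ θ`; PT. The exceptional `m` by SQ (`z = w`, `y = ⌊N ^ vd⌋`). -/
def StFB : Prop := ∃ (κ δ θ c B Bs C₁ Λ₀ : ℝ), 0 < κ ∧ 0 < δ ∧ 0 < θ ∧ θ < 1 ∧ 0 < c ∧ 0 ≤ B ∧ 1 ≤ Bs ∧
  ∀ Λ : ℝ, Λ₀ ≤ Λ → ∀ f : ℤ[X], Adm Λ f → 0 < f.leadingCoeff → NFD f → ∀ N : ℕ,
  C₁ * Λ ^ 5 ≤ Real.log N → Real.log N ≤ Real.exp (Λ / 16) →
  ∑ p ∈ (range (N + 1)).filter (fun p : ℕ => p.Prime ∧ (N : ℝ) ^ θ < (p : ℝ)), gf f p ≤ 1 / 200 →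
  Er f Λ κ δ B Bs N ⌊(N : ℝ) ^ θ⌋₊ ≤ ((Gd f N c).card : ℝ)

/-- (NU, assume `hEX : StEX`.) The error terms. PROOF. `PM ≤ 4 ^ (2 d) ≤ e ^ (3 Λ)`, `V(w) ≥ e ^ (- 2 Λ ^ 2)` (EX, `w ≤ N`), so the main term is at least `κ N e ^ (- 3 Λ - 2 Λ ^ 2) ≥ 5 N e ^ (- 3 Λ ^ 2)`. Each of the others is at most `N e ^ (- 3 Λ ^ 2)` for large `C₁`, `Λ`:
`B exp (Bs Λ ^ 4 + 2 Λ ^ 2) N ^ (- δ)` (`δ C₁ > Bs`), `exp (2 Bs Λ ^ 4 - C₁ Λ ^ 4 / 4)` (`C₁ > 8 Bs + 16`), `d / w ≤ 2 Λ N ^ (- θ)`, `d N ^ (vd - 1) ≤ Λ exp (- C₁ Λ ^ 5 / (3 Λ))` (`1 - vd = 1 / (2 d + 1)`), and `N ^ (- 1/4)`. -/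
def StNU : Prop := ∀ (κ δ θ B Bs : ℝ), 0 < κ → 0 < δ → 0 < θ → 0 ≤ B → 1 ≤ Bs → ∃ C₁ Λ₀ : ℝ,
  ∀ Λ : ℝ, Λ₀ ≤ Λ → ∀ f : ℤ[X], Adm Λ f → ∀ N w : ℕ, C₁ * Λ ^ 5 ≤ Real.log N →
  Real.log N ≤ Real.exp (Λ / 16) → (N : ℝ) ^ θ / 2 ≤ (w : ℝ) → w ≤ N →
  (N : ℝ) ^ (3 / 4 : ℝ) ≤ Er f Λ κ δ B Bs N w

/-- (RM, no hypotheses.) Regularity from Mertens. PROOF. `S(n) = Sf f n = log n (1 + δ_n)`, `|δ_n| ≤ ε₁` in the range. For `a = N ^ (i ω)`, `b = N ^ ((i + 1) ω)`, `A = ⌈a⌉ - 1`, `B = ⌈b⌉ - 1` the primes of the box are those in `(A, B]`, and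
`∑_{bx i} gf f p = ∑_{A < n ≤ B} (S(n) - S(n-1)) / log n = S(B) / log B - S(A) / log (A + 1) + ∑_{A < n < B} S(n) (1 / log n - 1 / log (n + 1))`. The same identity with `log n` instead of `S(n)`: difference at most
`ε₁ (2 + ∑ log n (1 / log n - 1 / log (n+1))) ≤ ε₁ (2 + log (log B / log (A + 1)))`. And `∑_{A < n ≤ B} (log n - log (n-1)) / log n` is between `log (log (B + 1) / log (A + 1)) - 1/A` and `log (log B / log A) + 1/A`, up to `O(1 / A)`, and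
`log B = (i + 1) ω lN + O(1 / b)`, `log A = i ω lN + O(1 / a)`; so it tends to `log ((i + 1) / i) = gm i`. `0 ≤ gf f p ≤ 1` is clear. -/
def StRM : Prop := ∀ (ω ε : ℝ) (j0 Nm : ℕ), 0 < ω → 0 < ε → 1 ≤ j0 → ∃ ε₁ : ℝ, 0 < ε₁ ∧ ∃ N₀ : ℕ,
  ∀ (f : ℤ[X]) (N : ℕ), N₀ ≤ N →
  (∀ Y : ℕ, (j0 : ℝ) * ω / 2 * Real.log N ≤ Real.log Y → Real.log Y ≤ ((Nm : ℝ) + 2) * ω * Real.log N →
    |Sf f Y - Real.log Y| ≤ ε₁ * Real.log Y) → Reg ε N ω j0 Nm (gf f)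

/-- (DI, assume `hMT : StMT`, `hRM : StRM`.) The dichotomy. PROOF. `ε₁ ≤ 1` from RM, `C₀` from MT, `n₀ = ⌈1600 / ε₁⌉₊`, `u_k = (C₁ + 1) Λ ^ 5 (3 / θ) ^ k`, `N_k = ⌊exp u_k⌋`, so `u_k - 1 ≤ log N_k ≤ u_k`. If for some `1 ≤ k ≤ n₀` the sum over `N_k ^ θ < p ≤ N_k` is at most
`1/200`, take `N = N_k`. Otherwise, as `θ log N_k ≥ 3 u_{k-1} - 1 ≥ log N_{k-1}` and `≥ C₀ Λ ^ 3`, these `n₀` windows are disjoint and consist of primes with `log p > C₀ Λ ^ 3`; so for `z = N_{n₀}` the sum `G` of MT is at least `n₀ / 200 ≥ 8 / ε₁`. Let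
`N = ⌈exp (4 u_{n₀} (1 + 1 / (j0 ω)))⌉₊`. If `log Y ≥ (j0 ω / 2) log N ≥ 2 u_{n₀}` then `z ^ 2 ≤ Y` and `C₀ Λ ^ 3 ≤ (ε₁ / 2) log Y` (`Λ` large), so by MT `|Sf f Y - log Y| ≤ C₀ Λ ^ 3 + (ε₁ / 2) log Y ≤ ε₁ log Y`; RM. (`log Y ≤ exp (Λ / 4)` for large `Λ` in all uses.) -/
def StDI : Prop := ∀ (ω ε θ C₁ : ℝ) (j0 Nm : ℕ), 0 < ω → 0 < ε → 0 < θ → θ < 1 → 0 < C₁ → 1 ≤ j0 →
  ∃ C₂ Λ₀ : ℝ, ∀ Λ : ℝ, Λ₀ ≤ Λ → ∀ f : ℤ[X], Adm Λ f → ∃ N : ℕ,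
    C₁ * Λ ^ 5 ≤ Real.log N ∧ Real.log N ≤ C₂ * Λ ^ 5 ∧ (Reg ε N ω j0 Nm (gf f) ∨
      ∑ p ∈ (range (N + 1)).filter (fun p : ℕ => p.Prime ∧ (N : ℝ) ^ θ < (p : ℝ)), gf f p ≤ 1 / 200)

/-- (EN, assume `hFA : StFA`, `hFB : StFB`, `hNU : StNU`, `hDI : StDI`.) The end. PROOF. Constants of FA and FB; NU for the parameters of FA with its `θ = j0 ω` (`⌈N ^ θ⌉ - 1 ≥ N ^ θ / 2`) and for those of FB; DI with `C₁` the maximum of all `C₁`'s and `1`, `ω`, `ε`, `j0`, `Nm` from FA and `θ` from FB. Let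
`Λ = max (len f) Λ₀`, `Λ₀ ≥ 1` so large that everything applies and `C₂ Λ ^ 5 ≤ exp (Λ / 16)`. `Adm Λ f`: `d + 1 ≤ len f`, `|a| < 2 ^ Nat.size |a| ≤ exp (len f)`. DI gives `N`, and in both cases `N ^ (3/4) ≤ #Gd f N c'`, `c' = min` of the two `c` (`Gd` is monotone in `c`). `X = 2 N`:
`log X ≤ C₂ Λ ^ 5 + 1 ≤ (C₂ + 1) Λ₀ ^ 5 (len f) ^ 5`, `(2 N) ^ (1/2) ≤ N ^ (3/4)` and `N ^ c' ≥ (2 N) ^ (c' / 2)` as `N ≥ 4`. The elements of `Gd f N c'` are `≤ X`. -/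
def StEN : Prop := ∃ C c : ℝ, 0 < C ∧ 0 < c ∧ ∀ f : ℤ[X], Irreducible f → 1 ≤ f.natDegree →
  0 < f.leadingCoeff → NFD f → ∃ X : ℕ, 1 ≤ X ∧ (X : ℝ) ≤ Real.exp (C * (len f : ℝ) ^ 5) ∧
    (X : ℝ) ^ (1 / 2 : ℝ) ≤ (Nat.card {m : ℕ // 1 ≤ m ∧ m ≤ X ∧ 1 < val f m ∧
      ArithmeticFunction.cardFactors (val f m) ≤ f.natDegree + 1 ∧
      ∀ p : ℕ, p.Prime → p ∣ val f m → (X : ℝ) ^ c < (p : ℝ)} : ℝ)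

end Pool.Agent.Helper9.UP
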